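import Pool.Agent.H55.T3.Df5
import Pool.Agent.H55.T3.Y1

/-!
Local classes at a place above three where `F(s)`, `s² = 3 δ`, is ramified (helper11, MP_78d38b_T3D, Block L; no row).
`W : y² = x³ + 3 δ (3 a x + 3 b)²`.
-/

set_option autoImplicit false
open scoped Classical

open IsDedekindDomain NumberField WithZero Pool.Agent.H10

namespace H11L

open H55T3

/-- The class of `d₁ + d₂ s` is trivial up to level three, or it is `9 Y + 3 M s`, `M = b + 3 a X`, `3 Y² = X³ + δ M²` (approximately). -/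
def ClsM {F : Type*} [Field F] (V : Valuation F (WithZero (Multiplicative ℤ))) (δ a b d₁ d₂ : F) : Prop :=
  (∃ t₁ t₂ e₁ e₂ : F, (t₁ ≠ 0 ∨ t₂ ≠ 0) ∧ Cube2 (3 * δ) e₁ e₂ t₁ t₂ ∧
    V (d₁ * e₁ + 3 * δ * d₂ * e₂ - 1) ≤ exp (-2 : ℤ) ∧ V (d₁ * e₂ + d₂ * e₁) ≤ exp (-1 : ℤ)) ∨
  (V b = 1 ∧ ∃ t₁ t₂ e₁ e₂ X Y : F, (t₁ ≠ 0 ∨ t₂ ≠ 0) ∧ Cube2 (3 * δ) e₁ e₂ t₁ t₂ ∧ V X ≤ 1 ∧ V Y ≤ 1 ∧
    V (3 * Y ^ 2 - X ^ 3 - δ * (b + 3 * a * X) ^ 2) ≤ exp (-2 : ℤ) ∧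
    V (d₁ * e₁ + 3 * δ * d₂ * e₂ - 9 * Y) ≤ exp (-3 : ℤ) ∧
    V (d₁ * e₂ + d₂ * e₁ - 3 * (b + 3 * a * X)) ≤ exp (-3 : ℤ))

end H11L
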