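import Pool.Agent.H11.T3L.Df

set_option autoImplicit false

/-!
ROW La (scaling; `LocM` with trivial data; about 50 lines).

PROOF. Second alternative of `LocM`: `x = t² x'`, `y = t³ y'`, `v_i = t v_i'`, so `e_i = t³ e_i'`: the equations for `(a', c')` are those for `(a, c)` divided by `t^6`, `t^3` (`field_simp`, `linear_combination`). Explicitly take `x' = x / t^2`, `y' = y / t^3`,
`v_i' = v_i / t`, `e_i' = e_i / t^3`.
-/

namespace H11L

open H55T3

theorem locM_scale {F : Type*} [Field F] {D a c a' c' t d₁ d₂ : F} (ht : t ≠ 0) (ha : a = t * a') (hc : c = t ^ 3 * c')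
    (H : LocM D a c d₁ d₂) : LocM D a' c' d₁ d₂ := by
  rcases H with H | ⟨x, y, v₁, v₂, e₁, e₂, h1, h2, ⟨h3, h4⟩, h5, h6⟩
  · exact Or.inl H
  refine Or.inr ⟨x / t ^ 2, y / t ^ 3, v₁ / t, v₂ / t, e₁ / t ^ 3, e₂ / t ^ 3, ?_, ?_, ⟨?_, ?_⟩, ?_, ?_⟩
  · subst ha hc
    field_simp
    linear_combination h1
  · exact h2.imp (fun h => div_ne_zero h ht) fun h => div_ne_zero h ht
  · rw [h3]
    field_simp
  · rw [h4]
    field_simp
  · rw [← h5]
    field_simp
  · subst ha hc
    field_simp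
    linear_combination h6

end H11L
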