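import Pool.Agent.H11.T3L.Df

/-!
ROW Lb (local analysis over a field in which three is a uniformiser; about 190 lines; same style as Pool/Agent/H55/T3/Wa.lean, whose private lemmas may be copied).

`F` a field, `V` a valuation with `V 3 = exp (-1)`, `V δ = 1`, `V a ≤ 1`, `exp (-2) < V b ≤ 1` (so `V b = 1` or `V b = exp (-1)`). `s² = 3 δ` formally; `(u₁ + u₂ s)(v₁ + v₂ s) = (u₁ v₁ + 3 δ u₂ v₂) + (u₁ v₂ + u₂ v₁) s`.

PROOF. (0) `V (3 δ) = exp (-1)` is odd, so `t₁² = 3 δ t₂²` implies `t₁ = t₂ = 0`.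
(1) First alternative of `LocM`: `d₁ + d₂ s = (t₁ + t₂ s)³`, not both `t_i` are `0` (`hd`), `n = t₁² - 3 δ t₂² ≠ 0`, take `t₁' = t₁ / n`, `t₂' = - t₂ / n` (the inverse): `d₁ e₁ + 3 δ d₂ e₂ = 1`, `d₁ e₂ + d₂ e₁ = 0` exactly (`field_simp; ring`). First alternative of `ClsM`.
(2) Second alternative: `y² = x³ + 3 δ (3 a x + 3 b)²`, `m = 3 a x + 3 b = 3 M`, `M = a x + b`, so `y² = x³ + 27 δ M²`; `d₁ e₁ + 3 δ d₂ e₂ = y`, `d₁ e₂ + d₂ e₁ = m`, `e = (v₁ + v₂ s)³`.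
 (2a) `1 ≤ V x`, `V x = exp n`, `n ≥ 0`: `V M ≤ exp n`, `V (27 δ M²) ≤ exp (2 n - 3) < exp (3 n)`, so `V (y²) = exp (3 n)`, `y ≠ 0`, `V y = exp r`, `2 r = 3 n`, `V (m / y) ≤ exp (n - 1 - r) ≤ exp (-1)` (`r ≥ n`). Take `t_i = v_i * (x / y)`, `e_i' = e_i * (x/y)³`:
   `d₁ e₁' + 3 δ d₂ e₂' - 1 = x³ / y² - 1 = - 27 δ M² / y²`, valuation `≤ exp (-3 + 2 n - 3 n) ≤ exp (-2)`, and `d₁ e₂' + d₂ e₁' = (m / y) (x³ / y²)`, valuation `≤ exp (-1)` (`V (x³/y²) = 1`). First alternative. (`x ≠ 0`.)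
 (2b) `V x < 1`: `X = x / 3`, `V X ≤ 1` (`le_exp_neg_one`), `M = b + 3 a X`, `y² = 27 (X³ + δ M²)`, so `V (y²) ≤ exp (-3)`, `V y ≤ exp (-2)` (integers: `2 k ≤ -3` implies `k ≤ -2`), `Y = y / 9`, `V Y ≤ 1`, `3 Y² = X³ + δ M²`.
   If `V b = 1`: second alternative of `ClsM` with `t_i = v_i`, `e_i`, `X`, `Y`; all three differences are `0`.
   If `V b = exp (-1)`: `V M ≤ exp (-1)`, so `V (X³) = V (3 Y² - δ M²) ≤ exp (-1)`, `V X ≤ exp (-1)`, `V (X³) ≤ exp (-3)`; `V (3 Y²) ≤ max (exp (-3)) (exp (-2))`, so `V Y ≤ exp (-1)` (`V (Y²) ≤ exp (-1)`), `V (3 Y²) ≤ exp (-3)`, `V (δ M²) ≤ exp (-3)`, `V M ≤ exp (-2)`;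
   but `V (3 a X) ≤ exp (-2) < V b`, so `V M = V b = exp (-1)`: contradiction.
-/

set_option autoImplicit false
open scoped Classical

open IsDedekindDomain NumberField WithZero Pool.Agent.H10

namespace H11L

open H55T3

section LbAux

variable {F : Type*} [Field F] {V : Valuation F (WithZero (Multiplicative ℤ))}

private lemma Lb_exp_sq (n : ℤ) : (exp n : WithZero (Multiplicative ℤ)) ^ 2 = exp (n + n) := by
  rw [pow_two, exp_add]

private lemma Lb_exp_cu (n : ℤ) : (exp n : WithZero (Multiplicative ℤ)) ^ 3 = exp (n + n + n) := by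
  rw [pow_succ, pow_two, exp_add, exp_add]

private lemma Lb_cases (z : F) : z = 0 ∨ ∃ n : ℤ, V z = exp n := by
  by_cases h : V z = 0
  · left
    exact (Valuation.zero_iff V).1 h
  · right
    exact ⟨log (V z), (exp_log h).symm⟩

private lemma Lb_sq_le {z : F} {k : ℤ} (h : V (z ^ 2) ≤ exp (k + k + 1)) : V z ≤ exp k := by
  rcases Lb_cases (V := V) z with rfl | ⟨n, hn⟩
  · rw [map_zero]
    exact zero_le
  · rw [map_pow, hn, Lb_exp_sq, exp_le_exp] at h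
    rw [hn, exp_le_exp]
    omega

private lemma Lb_cu_le {z : F} (h : V (z ^ 3) ≤ exp (-1 : ℤ)) : V z ≤ exp (-1 : ℤ) := by
  rcases Lb_cases (V := V) z with rfl | ⟨n, hn⟩
  · rw [map_zero]
    exact zero_le
  · rw [map_pow, hn, Lb_exp_cu, exp_le_exp] at h
    rw [hn, exp_le_exp]
    omega

private lemma Lb_mul {z w : F} {m n : ℤ} (h : V z ≤ exp m) (h' : V w ≤ exp n) :
    V (z * w) ≤ exp (m + n) := by
  rw [map_mul, exp_add]
  exact mul_le_mul' h h'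

private lemma Lb_pow2 {z : F} {m : ℤ} (h : V z ≤ exp m) : V (z ^ 2) ≤ exp (m + m) := by
  rw [map_pow, ← Lb_exp_sq]
  exact pow_le_pow_left' h 2

private lemma Lb_pow3 {z : F} {m : ℤ} (h : V z ≤ exp m) : V (z ^ 3) ≤ exp (m + m + m) := by
  rw [map_pow, ← Lb_exp_cu]
  exact pow_le_pow_left' h 3

private lemma Lb_mono {z : F} {m n : ℤ} (h : V z ≤ exp m) (hmn : m ≤ n) : V z ≤ exp n :=
  h.trans (exp_le_exp.2 hmn)

/-- `3 δ` is not a square up to scaling -/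
private lemma Lb_nsq (h3 : V 3 = exp (-1 : ℤ)) {δ : F} (hδ : V δ = 1) {t₁ t₂ : F}
    (h : t₁ ^ 2 - 3 * δ * t₂ ^ 2 = 0) : t₁ = 0 ∧ t₂ = 0 := by
  have h1 : t₁ ^ 2 = 3 * δ * t₂ ^ 2 := by linear_combination h
  have h2 := congrArg V h1
  rw [map_pow, map_mul, map_mul, map_pow, h3, hδ, mul_one] at h2
  rcases Lb_cases (V := V) t₂ with h4 | ⟨n, hn⟩
  · refine ⟨?_, h4⟩
    rw [h4] at h1
    have h5 : t₁ ^ 2 = 0 := by rw [h1]; ring
    exact pow_eq_zero_iff (two_ne_zero) |>.1 h5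
  · exfalso
    rcases Lb_cases (V := V) t₁ with h4 | ⟨k, hk⟩
    · rw [h4, map_zero, zero_pow two_ne_zero, hn, Lb_exp_sq, ← exp_add] at h2
      exact exp_ne_zero h2.symm
    · rw [hk, hn, Lb_exp_sq, Lb_exp_sq, ← exp_add] at h2
      have h5 := exp_injective h2
      omega

end LbAux

theorem clsM_of_locM {F : Type*} [Field F] {V : Valuation F (WithZero (Multiplicative ℤ))} (h3 : V 3 = exp (-1 : ℤ))
    {δ a b d₁ d₂ : F} (hδ : V δ = 1) (ha : V a ≤ 1) (hb : V b ≤ 1) (hb2 : exp (-2 : ℤ) < V b) (hd : d₁ ≠ 0 ∨ d₂ ≠ 0)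
    (H : LocM (3 * δ) a (3 * b) d₁ d₂) : ClsM V δ a b d₁ d₂ := by
  have h30 : (3 : F) ≠ 0 := by
    intro h
    rw [h, map_zero] at h3
    exact exp_ne_zero h3.symm
  have h3' : V (3 : F) ≤ exp (-1 : ℤ) := h3.le
  have hδ' : V δ ≤ exp (0 : ℤ) := by rw [hδ, exp_zero]
  have ha' : V a ≤ exp (0 : ℤ) := by rwa [exp_zero]
  have hb' : V b ≤ exp (0 : ℤ) := by rwa [exp_zero]
  rcases H with ⟨t₁, t₂, h1, h2⟩ | ⟨x, y, v₁, v₂, e₁, e₂, hy, hv, ⟨hc1, hc2⟩, hd1, hd2⟩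
  · -- a cube
    left
    have hn : t₁ ^ 2 - 3 * δ * t₂ ^ 2 ≠ 0 := by
      intro h
      obtain ⟨ht1, ht2⟩ := Lb_nsq h3 hδ h
      rw [ht1, ht2] at h1 h2
      rcases hd with h | h
      · exact h (by rw [h1]; ring)
      · exact h (by rw [h2]; ring)
    obtain ⟨n, hnn⟩ : ∃ n, n = t₁ ^ 2 - 3 * δ * t₂ ^ 2 := ⟨_, rfl⟩
    rw [← hnn] at hn
    refine ⟨t₁ / n, -t₂ / n, (t₁ / n) ^ 3 + 3 * (3 * δ) * (t₁ / n) * (-t₂ / n) ^ 2,
      3 * (t₁ / n) ^ 2 * (-t₂ / n) + 3 * δ * (-t₂ / n) ^ 3, ?_, ⟨rfl, rfl⟩, ?_, ?_⟩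
    · by_contra hcon
      rw [not_or, not_not, not_not] at hcon
      have ht1 : t₁ = 0 := (div_eq_zero_iff.1 hcon.1).resolve_right hn
      have ht2 : t₂ = 0 := neg_eq_zero.1 ((div_eq_zero_iff.1 hcon.2).resolve_right hn)
      apply hn
      rw [hnn, ht1, ht2]
      ring
    · have e : d₁ * ((t₁ / n) ^ 3 + 3 * (3 * δ) * (t₁ / n) * (-t₂ / n) ^ 2) +
          3 * δ * d₂ * (3 * (t₁ / n) ^ 2 * (-t₂ / n) + 3 * δ * (-t₂ / n) ^ 3) - 1 = 0 := by
        have e1 : d₁ * ((t₁ / n) ^ 3 + 3 * (3 * δ) * (t₁ / n) * (-t₂ / n) ^ 2) +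
          3 * δ * d₂ * (3 * (t₁ / n) ^ 2 * (-t₂ / n) + 3 * δ * (-t₂ / n) ^ 3) =
          (t₁ ^ 2 - 3 * δ * t₂ ^ 2) ^ 3 / n ^ 3 := by
          rw [h1, h2]
          field_simp
          ring
        rw [e1, ← hnn, div_self (pow_ne_zero 3 hn), sub_self]
      rw [e, map_zero]
      exact zero_le
    · have e : d₁ * (3 * (t₁ / n) ^ 2 * (-t₂ / n) + 3 * δ * (-t₂ / n) ^ 3) +
          d₂ * ((t₁ / n) ^ 3 + 3 * (3 * δ) * (t₁ / n) * (-t₂ / n) ^ 2) = 0 := by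
        rw [h1, h2]
        field_simp
        ring
      rw [e, map_zero]
      exact zero_le
  obtain ⟨M, hM⟩ : ∃ M : F, M = a * x + b := ⟨_, rfl⟩
  have hyM : y ^ 2 = x ^ 3 + 3 * 3 * 3 * (δ * M ^ 2) := by
    rw [hy, hM]
    ring
  have hm : 3 * a * x + 3 * b = 3 * M := by
    rw [hM]
    ring
  rcases lt_or_ge (V x) 1 with hx1 | hx1
  · -- `V x < 1`
    obtain ⟨X, hX⟩ : ∃ X : F, X = x / 3 := ⟨_, rfl⟩
    have hxX : x = 3 * X := by rw [hX]; field_simp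
    have hXV : V X ≤ exp (0 : ℤ) := by
      rw [exp_zero, hX, map_div₀, h3, div_le_iff₀ (by rw [zero_lt_iff]; exact exp_ne_zero), one_mul]
      exact le_exp_neg_one hx1
    have hMX : M = b + 3 * a * X := by
      rw [hM, hxX]
      ring
    have h3aX : V (3 * a * X) ≤ exp (-1 : ℤ) :=
      Lb_mono (Lb_mul (Lb_mul h3' ha') hXV) (by norm_num)
    have hMV : V M ≤ exp (0 : ℤ) := by
      rw [hMX]
      exact V_add_le hb' (Lb_mono h3aX (by norm_num))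
    have hy27 : y ^ 2 = 3 * 3 * 3 * (X ^ 3 + δ * M ^ 2) := by
      rw [hyM, hxX]
      ring
    have hin : V (X ^ 3 + δ * M ^ 2) ≤ exp (0 : ℤ) :=
      V_add_le (Lb_mono (Lb_pow3 hXV) (by norm_num))
        (Lb_mono (Lb_mul hδ' (Lb_pow2 hMV)) (by norm_num))
    have hyV : V y ≤ exp (-2 : ℤ) := by
      refine Lb_sq_le (Lb_mono (m := -3) ?_ (by norm_num))
      rw [hy27]
      exact Lb_mono (Lb_mul (Lb_mul (Lb_mul h3' h3') h3') hin) (by norm_num)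
    obtain ⟨Y, hY⟩ : ∃ Y : F, Y = y / 9 := ⟨_, rfl⟩
    have h90 : (9 : F) ≠ 0 := by
      have : (9 : F) = 3 * 3 := by norm_num
      rw [this]
      exact mul_ne_zero h30 h30
    have h9V : V (9 : F) = exp (-2 : ℤ) := by
      have : (9 : F) = 3 * 3 := by norm_num
      rw [this, map_mul, h3, ← exp_add]
      norm_num
    have hyY : y = 9 * Y := by rw [hY]; field_simp
    have hYV : V Y ≤ exp (0 : ℤ) := by
      rw [exp_zero, hY, map_div₀, h9V, div_le_iff₀ (by rw [zero_lt_iff]; exact exp_ne_zero), one_mul]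
      exact hyV
    have hYe : 3 * Y ^ 2 = X ^ 3 + δ * M ^ 2 := by
      have h27 : (3 * 3 * 3 : F) ≠ 0 := mul_ne_zero (mul_ne_zero h30 h30) h30
      apply mul_left_cancel₀ h27
      rw [← hy27, hyY]
      ring
    by_cases hb1 : V b = 1
    · right
      refine ⟨hb1, v₁, v₂, e₁, e₂, X, Y, hv, ⟨hc1, hc2⟩, by rwa [exp_zero] at hXV,
        by rwa [exp_zero] at hYV, ?_, ?_, ?_⟩
      · have e : 3 * Y ^ 2 - X ^ 3 - δ * (b + 3 * a * X) ^ 2 = 0 := by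
          rw [hYe, hMX]
          ring
        rw [e, map_zero]
        exact zero_le
      · have e : d₁ * e₁ + 3 * δ * d₂ * e₂ - 9 * Y = 0 := by
          rw [hd1, hyY, sub_self]
        rw [e, map_zero]
        exact zero_le
      · have e : d₁ * e₂ + d₂ * e₁ - 3 * (b + 3 * a * X) = 0 := by
          rw [hd2, hxX]
          ring
        rw [e, map_zero]
        exact zero_le
    · exfalso
      have hblt : V b ≤ exp (-1 : ℤ) := le_exp_neg_one (lt_of_le_of_ne hb hb1)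
      have hM1 : V M ≤ exp (-1 : ℤ) := by
        rw [hMX]
        exact V_add_le hblt h3aX
      have hδM : V (δ * M ^ 2) ≤ exp (-2 : ℤ) :=
        Lb_mono (Lb_mul hδ' (Lb_pow2 hM1)) (by norm_num)
      have hX3 : V (X ^ 3) ≤ exp (-1 : ℤ) := by
        have e : X ^ 3 = 3 * Y ^ 2 - δ * M ^ 2 := by rw [hYe]; ring
        rw [e]
        exact V_sub_le (Lb_mono (Lb_mul h3' (Lb_pow2 hYV)) (by norm_num))
          (Lb_mono hδM (by norm_num))
      have hX1 := Lb_cu_le hX3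
      have hX33 : V (X ^ 3) ≤ exp (-3 : ℤ) := Lb_mono (Lb_pow3 hX1) (by norm_num)
      have hY2 : V (Y ^ 2) ≤ exp (-1 : ℤ) := by
        have h5 : V (3 * Y ^ 2) ≤ exp (-2 : ℤ) := by
          rw [hYe]
          exact V_add_le (Lb_mono hX33 (by norm_num)) hδM
        rw [map_mul, h3] at h5
        have h6 : (exp (-2 : ℤ) : WithZero (Multiplicative ℤ)) = exp (-1 : ℤ) * exp (-1 : ℤ) := by
          rw [← exp_add]
          norm_num
        rw [h6] at h5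
        exact le_of_mul_le_mul_left h5 (by rw [zero_lt_iff]; exact exp_ne_zero)
      have hY1 : V Y ≤ exp (-1 : ℤ) := Lb_sq_le (Lb_mono hY2 (by norm_num))
      have hM3 : V (M ^ 2) ≤ exp (-3 : ℤ) := by
        have h5 : V (δ * M ^ 2) ≤ exp (-3 : ℤ) := by
          have e : δ * M ^ 2 = 3 * Y ^ 2 - X ^ 3 := by rw [hYe]; ring
          rw [e]
          exact V_sub_le (Lb_mono (Lb_mul h3' (Lb_pow2 hY1)) (by norm_num)) hX33
        rwa [map_mul, hδ, one_mul] at h5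
      have hM2 : V M ≤ exp (-2 : ℤ) := Lb_sq_le (Lb_mono hM3 (by norm_num))
      have hb3 : V b ≤ exp (-2 : ℤ) := by
        have e : b = M - 3 * a * X := by rw [hMX]; ring
        rw [e]
        exact V_sub_le hM2 (Lb_mono (Lb_mul (Lb_mul h3' ha') hX1) (by norm_num))
      exact absurd hb2 (not_lt.2 hb3)
  · -- `1 ≤ V x`
    left
    have hx0 : x ≠ 0 := by
      rintro rfl
      rw [map_zero] at hx1
      exact absurd hx1 (not_le.2 zero_lt_one)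
    obtain ⟨n, hn⟩ : ∃ n : ℤ, V x = exp n := (Lb_cases (V := V) x).resolve_left hx0
    have hn0 : 0 ≤ n := by
      rw [hn, ← exp_zero, exp_le_exp] at hx1
      exact hx1
    have hMV : V M ≤ exp n := by
      rw [hM]
      exact V_add_le (Lb_mono (Lb_mul ha' hn.le) (by omega)) (Lb_mono hb' hn0)
    have h27V : V (3 * 3 * 3 * (δ * M ^ 2)) ≤ exp (n + n - 3) :=
      Lb_mono (Lb_mul (Lb_mul (Lb_mul h3' h3') h3') (Lb_mul hδ' (Lb_pow2 hMV))) (by omega)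
    have hx3 : V (x ^ 3) = exp (n + n + n) := by rw [map_pow, hn, Lb_exp_cu]
    have hy2 : V (y ^ 2) = exp (n + n + n) := by
      have h5 : V (3 * 3 * 3 * (δ * M ^ 2)) < V (x ^ 3) := by
        rw [hx3]
        refine h27V.trans_lt ?_
        rw [exp_lt_exp]
        omega
      rw [hyM, Valuation.map_add_eq_of_lt_left V h5, hx3]
    have hy0 : y ≠ 0 := by
      rintro rfl
      rw [zero_pow two_ne_zero, map_zero] at hy2
      exact exp_ne_zero hy2.symm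
    obtain ⟨r, hr⟩ : ∃ r : ℤ, V y = exp r := (Lb_cases (V := V) y).resolve_left hy0
    have hrn : r + r = n + n + n := by
      rw [map_pow, hr, Lb_exp_sq] at hy2
      exact exp_injective hy2
    have hq : x / y ≠ 0 := div_ne_zero hx0 hy0
    refine ⟨v₁ * (x / y), v₂ * (x / y), e₁ * (x / y) ^ 3, e₂ * (x / y) ^ 3, ?_, ⟨?_, ?_⟩, ?_, ?_⟩
    · rcases hv with h | h
      · exact Or.inl (mul_ne_zero h hq)
      · exact Or.inr (mul_ne_zero h hq)
    · rw [hc1]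
      ring
    · rw [hc2]
      ring
    · have e : d₁ * (e₁ * (x / y) ^ 3) + 3 * δ * d₂ * (e₂ * (x / y) ^ 3) - 1 =
          -(3 * 3 * 3 * (δ * M ^ 2) / y ^ 2) := by
        have e1 : d₁ * (e₁ * (x / y) ^ 3) + 3 * δ * d₂ * (e₂ * (x / y) ^ 3) =
            (d₁ * e₁ + 3 * δ * d₂ * e₂) * (x / y) ^ 3 := by ring
        have e2 : x ^ 3 = y ^ 2 - 3 * 3 * 3 * (δ * M ^ 2) := by rw [hyM]; ring
        rw [e1, hd1, div_pow, e2]
        field_simp
        ring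
      rw [e, Valuation.map_neg, map_div₀, hy2, div_le_iff₀ (by rw [zero_lt_iff]; exact exp_ne_zero),
        ← exp_add]
      exact Lb_mono h27V (by omega)
    · have e : d₁ * (e₂ * (x / y) ^ 3) + d₂ * (e₁ * (x / y) ^ 3) = 3 * M * x ^ 3 / (y * y ^ 2) := by
        have e1 : d₁ * (e₂ * (x / y) ^ 3) + d₂ * (e₁ * (x / y) ^ 3) =
            (d₁ * e₂ + d₂ * e₁) * (x / y) ^ 3 := by ring
        rw [e1, hd2, hm, div_pow]
        field_simp
      rw [e, map_div₀, map_mul V y, hy2, hr, div_le_iff₀ (by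
        rw [← exp_add, zero_lt_iff]; exact exp_ne_zero), ← exp_add, ← exp_add]
      exact Lb_mono (Lb_mul (Lb_mul h3' hMV) hx3.le) (by omega)

end H11L
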