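import Pool.Agent.H11.T3L.Df

/-!
ROW Lc (descent of the approximation from the completion; about 150 lines; compare Pool/Agent/H55/T3/Ws.lean).

PROOF. `E` the completion at `w`, `L` dense: `exists_close w t n : ∃ k : L, Valued.v (algebraMap k - t) < exp n` (Pool/Agent/H10/Semi.lean), `valued_algebraMap`.
Choose an integer `r ≥ 0` with `V d₁, V d₂, V t₁, V t₂ ≤ exp r` (`V` = `Valued.v`; `V z = 0` or `V z = exp (log (V z))`). Approximate `t₁, t₂` by `t₁', t₂' ∈ L` with `V (t_i' - t_i) ≤ exp (-(3 r + 3))` and define `e_i'` by the formulas of `Cube2` (over `L`). As all values are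
`≤ exp r` (also `V t_i' ≤ exp r`), `V 3, V δ ≤ 1`: `V (e_i' - e_i) ≤ exp (2 r - 3 r - 3)` (each monomial is `t_i t_j t_k` with integral coefficients), `V (d_j (e_i' - e_i)) ≤ exp (-3)`. So `d₁ e₁' + 3 δ d₂ e₂'` and `d₁ e₂' + d₂ e₁'` change by at most `exp (-3)`.
First alternative: immediate. `t₁' ≠ 0` or `t₂' ≠ 0`: otherwise `e_i' = 0` and `V (0 - 1) = 1 ≤ exp (-2)`, false.
Second alternative: approximate also `X, Y` by `X', Y' ∈ L` with `V (X' - X), V (Y' - Y) ≤ exp (-1)`. `V (9 Y' - 9 Y) ≤ exp (-3)`, `V (3 (b + 3 a X') - 3 (b + 3 a X)) = V (9 a (X' - X)) ≤ exp (-3)`; `V (3 Y'² - 3 Y²) ≤ exp (-2)`;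
`X'³ - X³ = (X' - X)³ + 3 X X' (X' - X)` has `V ≤ exp (-2)`; `M' - M = 3 a (X' - X)`, `V (δ (M'² - M²)) ≤ exp (-2)`. Not both `t_i'` are `0`: otherwise `V (3 M') ≤ exp (-3)`, but `V M' = V (b + 3 a X') = 1`, so `V (3 M') = exp (-1)`.
-/

set_option autoImplicit false
open scoped Classical

open IsDedekindDomain NumberField WithZero Pool.Agent.H10

namespace H11L

open H55T3

private theorem Lc_near {L : Type} [Field L] [NumberField L] (w : HeightOneSpectrum (𝓞 L))
    {f : w.adicCompletion L × w.adicCompletion L × w.adicCompletion L × w.adicCompletion L → w.adicCompletion L}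
    (hf : Continuous f) (p : w.adicCompletion L × w.adicCompletion L × w.adicCompletion L × w.adicCompletion L)
    (n : ℤ) : ∀ᶠ q in nhds p, Valued.v (f q - f p) < exp n := by
  have h1 : IsOpen {y : w.adicCompletion L | Valued.v y < exp n} := by
    obtain ⟨u, hu⟩ := w.valuedAdicCompletion_surjective L (exp n)
    have := Valued.isOpen_ball (w.adicCompletion L) (Valued.v.restrict u)
    simp_rw [Valuation.restrict_lt_iff] at this
    rwa [hu] at this
  have h2 : IsOpen {q | Valued.v (f q - f p) < exp n} := h1.preimage (hf.sub continuous_const)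
  refine h2.mem_nhds ?_
  show Valued.v (f p - f p) < exp n
  rw [sub_self, map_zero]
  exact exp_pos

private theorem Lc_ex {L : Type} [Field L] [NumberField L] (w : HeightOneSpectrum (𝓞 L))
    {p : w.adicCompletion L × w.adicCompletion L × w.adicCompletion L × w.adicCompletion L}
    {P : w.adicCompletion L × w.adicCompletion L × w.adicCompletion L × w.adicCompletion L → Prop}
    (h : ∀ᶠ q in nhds p, P q) : ∃ a b c d : L, P (algebraMap L (w.adicCompletion L) a,
      algebraMap L (w.adicCompletion L) b, algebraMap L (w.adicCompletion L) c,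
      algebraMap L (w.adicCompletion L) d) := by
  have hd := HeightOneSpectrum.denseRange_algebraMap (K := L) w
  have hd4 := hd.prodMap (hd.prodMap (hd.prodMap hd))
  obtain ⟨s, hs, hso, hps⟩ := mem_nhds_iff.1 h
  obtain ⟨⟨a, b, c, d⟩, hk⟩ := hd4.exists_mem_open hso ⟨p, hps⟩
  exact ⟨a, b, c, d, hs hk⟩

private theorem Lc_le {F : Type*} [Field F] {V : Valuation F (WithZero (Multiplicative ℤ))} {x y c : F} {n m : ℤ}
    (h1 : V (x - y) < exp n) (hnm : n ≤ m) (h2 : V (y - c) ≤ exp m) : V (x - c) ≤ exp m := by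
  have e1 : x - c = (x - y) + (y - c) := by ring
  rw [e1]
  exact V_add_le (h1.le.trans (exp_le_exp.2 hnm)) h2

theorem clsM_descend {L : Type} [Field L] [NumberField L] {w : HeightOneSpectrum (𝓞 L)} (h3 : w.valuation L 3 = exp (-1 : ℤ))
    {δ a b d₁ d₂ : L} (hδ : w.valuation L δ ≤ 1) (ha : w.valuation L a ≤ 1)
    (H : ClsM Valued.v (algebraMap L (w.adicCompletion L) δ) (algebraMap L (w.adicCompletion L) a)
      (algebraMap L (w.adicCompletion L) b) (algebraMap L (w.adicCompletion L) d₁) (algebraMap L (w.adicCompletion L) d₂)) :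
    ClsM (w.valuation L) δ a b d₁ d₂ := by
  obtain ⟨Δ, hΔ⟩ : ∃ Δ, Δ = algebraMap L (w.adicCompletion L) δ := ⟨_, rfl⟩
  obtain ⟨A, hA⟩ : ∃ A, A = algebraMap L (w.adicCompletion L) a := ⟨_, rfl⟩
  obtain ⟨B, hB⟩ : ∃ B, B = algebraMap L (w.adicCompletion L) b := ⟨_, rfl⟩
  obtain ⟨D₁, hD₁⟩ : ∃ D₁, D₁ = algebraMap L (w.adicCompletion L) d₁ := ⟨_, rfl⟩
  obtain ⟨D₂, hD₂⟩ : ∃ D₂, D₂ = algebraMap L (w.adicCompletion L) d₂ := ⟨_, rfl⟩
  rw [← hΔ, ← hA, ← hB, ← hD₁, ← hD₂] at H
  obtain ⟨F₁, hF₁⟩ : ∃ F₁ : w.adicCompletion L × w.adicCompletion L × w.adicCompletion L × w.adicCompletion L →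
    w.adicCompletion L, ∀ q, F₁ q = D₁ * (q.1 ^ 3 + 3 * (3 * Δ) * q.1 * q.2.1 ^ 2) +
      3 * Δ * D₂ * (3 * q.1 ^ 2 * q.2.1 + 3 * Δ * q.2.1 ^ 3) := ⟨_, fun q => rfl⟩
  obtain ⟨F₂, hF₂⟩ : ∃ F₂ : w.adicCompletion L × w.adicCompletion L × w.adicCompletion L × w.adicCompletion L →
    w.adicCompletion L, ∀ q, F₂ q = D₁ * (3 * q.1 ^ 2 * q.2.1 + 3 * Δ * q.2.1 ^ 3) +
      D₂ * (q.1 ^ 3 + 3 * (3 * Δ) * q.1 * q.2.1 ^ 2) := ⟨_, fun q => rfl⟩
  have cF₁ : Continuous F₁ := by
    rw [show F₁ = _ from funext hF₁]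
    fun_prop
  have cF₂ : Continuous F₂ := by
    rw [show F₂ = _ from funext hF₂]
    fun_prop
  have hne : ∀ (t₁ t₂ x y : w.adicCompletion L), (t₁ ≠ 0 ∨ t₂ ≠ 0) →
      ∀ᶠ q in nhds (t₁, t₂, x, y), (q.1 ≠ 0 ∨ q.2.1 ≠ 0) := by
    intro t₁ t₂ x y h
    rcases h with h | h
    · have c1 : Continuous fun q : w.adicCompletion L × w.adicCompletion L × w.adicCompletion L ×
        w.adicCompletion L => q.1 := by fun_prop
      filter_upwards [(c1.tendsto (t₁, t₂, x, y)).eventually_ne h] with q hq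
      exact Or.inl hq
    · have c1 : Continuous fun q : w.adicCompletion L × w.adicCompletion L × w.adicCompletion L ×
        w.adicCompletion L => q.2.1 := by fun_prop
      filter_upwards [(c1.tendsto (t₁, t₂, x, y)).eventually_ne h] with q hq
      exact Or.inr hq
  have hne' : ∀ a' b' : L, (algebraMap L (w.adicCompletion L) a' ≠ 0 ∨ algebraMap L (w.adicCompletion L) b' ≠ 0) →
      (a' ≠ 0 ∨ b' ≠ 0) := by
    intro a' b' h
    rcases h with h | h
    · left
      rintro rfl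
      exact h (map_zero _)
    · right
      rintro rfl
      exact h (map_zero _)
  rcases H with ⟨t₁, t₂, e₁, e₂, ht, ⟨he₁, he₂⟩, h1, h2⟩ | ⟨hb, t₁, t₂, e₁, e₂, X, Y, ht, ⟨he₁, he₂⟩, hX, hY, h1, h2, h3⟩
  · left
    obtain ⟨a', b', c', d', k1, k2, k3⟩ := Lc_ex w ((Lc_near w cF₁ (t₁, t₂, 0, 0) (-3)).and
      ((Lc_near w cF₂ (t₁, t₂, 0, 0) (-3)).and (hne t₁ t₂ 0 0 ht)))
    refine ⟨a', b', _, _, hne' _ _ k3, ⟨rfl, rfl⟩, ?_, ?_⟩
    · rw [← valued_algebraMap]
      have e : algebraMap L (w.adicCompletion L) (d₁ * (a' ^ 3 + 3 * (3 * δ) * a' * b' ^ 2) +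
          3 * δ * d₂ * (3 * a' ^ 2 * b' + 3 * δ * b' ^ 3) - 1) =
          F₁ (algebraMap L (w.adicCompletion L) a', algebraMap L (w.adicCompletion L) b',
            algebraMap L (w.adicCompletion L) c', algebraMap L (w.adicCompletion L) d') - 1 := by
        rw [hF₁]
        simp only [map_sub, map_add, map_mul, map_pow, map_one, map_ofNat, ← hΔ, ← hD₁, ← hD₂]
      rw [e]
      refine Lc_le k1 (by norm_num) ?_
      rw [hF₁]
      rw [he₁, he₂] at h1
      exact h1
    · rw [← valued_algebraMap]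
      have e : algebraMap L (w.adicCompletion L) (d₁ * (3 * a' ^ 2 * b' + 3 * δ * b' ^ 3) +
          d₂ * (a' ^ 3 + 3 * (3 * δ) * a' * b' ^ 2)) =
          F₂ (algebraMap L (w.adicCompletion L) a', algebraMap L (w.adicCompletion L) b',
            algebraMap L (w.adicCompletion L) c', algebraMap L (w.adicCompletion L) d') - 0 := by
        rw [hF₂]
        simp only [map_add, map_mul, map_pow, map_ofNat, ← hΔ, ← hD₁, ← hD₂, sub_zero]
      rw [e]
      refine Lc_le k2 (by norm_num) ?_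
      rw [hF₂, sub_zero]
      rw [he₁, he₂] at h2
      exact h2
  · right
    refine ⟨by rw [← valued_algebraMap, ← hB]; exact hb, ?_⟩
    obtain ⟨G₁, hG₁⟩ : ∃ G₁ : w.adicCompletion L × w.adicCompletion L × w.adicCompletion L × w.adicCompletion L →
      w.adicCompletion L, ∀ q, G₁ q = 3 * q.2.2.2 ^ 2 - q.2.2.1 ^ 3 - Δ * (B + 3 * A * q.2.2.1) ^ 2 :=
        ⟨_, fun q => rfl⟩
    have cG₁ : Continuous G₁ := by
      rw [show G₁ = _ from funext hG₁]
      fun_prop
    obtain ⟨G₂, hG₂⟩ : ∃ G₂ : w.adicCompletion L × w.adicCompletion L × w.adicCompletion L × w.adicCompletion L →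
      w.adicCompletion L, ∀ q, G₂ q = F₁ q - 9 * q.2.2.2 := ⟨_, fun q => rfl⟩
    have cG₂ : Continuous G₂ := by
      rw [show G₂ = _ from funext hG₂]
      fun_prop
    obtain ⟨G₃, hG₃⟩ : ∃ G₃ : w.adicCompletion L × w.adicCompletion L × w.adicCompletion L × w.adicCompletion L →
      w.adicCompletion L, ∀ q, G₃ q = F₂ q - 3 * (B + 3 * A * q.2.2.1) := ⟨_, fun q => rfl⟩
    have cG₃ : Continuous G₃ := by
      rw [show G₃ = _ from funext hG₃]
      fun_prop
    have cX : Continuous fun q : w.adicCompletion L × w.adicCompletion L × w.adicCompletion L ×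
        w.adicCompletion L => q.2.2.1 := by fun_prop
    have cY : Continuous fun q : w.adicCompletion L × w.adicCompletion L × w.adicCompletion L ×
        w.adicCompletion L => q.2.2.2 := by fun_prop
    obtain ⟨a', b', c', d', k1, k2, k3, k4, k5, k6⟩ := Lc_ex w ((Lc_near w cG₁ (t₁, t₂, X, Y) (-2)).and
      ((Lc_near w cG₂ (t₁, t₂, X, Y) (-3)).and ((Lc_near w cG₃ (t₁, t₂, X, Y) (-3)).and
        ((Lc_near w cX (t₁, t₂, X, Y) 0).and ((Lc_near w cY (t₁, t₂, X, Y) 0).and (hne t₁ t₂ X Y ht))))))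
    refine ⟨a', b', _, _, c', d', hne' _ _ k6, ⟨rfl, rfl⟩, ?_, ?_, ?_, ?_, ?_⟩
    · rw [← valued_algebraMap, ← sub_zero (algebraMap L (w.adicCompletion L) c'), ← exp_zero]
      refine Lc_le k4 le_rfl ?_
      rw [sub_zero, exp_zero]
      exact hX
    · rw [← valued_algebraMap, ← sub_zero (algebraMap L (w.adicCompletion L) d'), ← exp_zero]
      refine Lc_le k5 le_rfl ?_
      rw [sub_zero, exp_zero]
      exact hY
    · rw [← valued_algebraMap]
      have e : algebraMap L (w.adicCompletion L) (3 * d' ^ 2 - c' ^ 3 - δ * (b + 3 * a * c') ^ 2) =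
          G₁ (algebraMap L (w.adicCompletion L) a', algebraMap L (w.adicCompletion L) b',
            algebraMap L (w.adicCompletion L) c', algebraMap L (w.adicCompletion L) d') - 0 := by
        rw [hG₁]
        simp only [map_sub, map_add, map_mul, map_pow, map_ofNat, ← hΔ, ← hA, ← hB, sub_zero]
      rw [e]
      refine Lc_le k1 le_rfl ?_
      rw [hG₁, sub_zero]
      exact h1
    · rw [← valued_algebraMap]
      have e : algebraMap L (w.adicCompletion L) (d₁ * (a' ^ 3 + 3 * (3 * δ) * a' * b' ^ 2) +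
          3 * δ * d₂ * (3 * a' ^ 2 * b' + 3 * δ * b' ^ 3) - 9 * d') =
          G₂ (algebraMap L (w.adicCompletion L) a', algebraMap L (w.adicCompletion L) b',
            algebraMap L (w.adicCompletion L) c', algebraMap L (w.adicCompletion L) d') - 0 := by
        rw [hG₂, hF₁]
        simp only [map_sub, map_add, map_mul, map_pow, map_ofNat, ← hΔ, ← hD₁, ← hD₂, sub_zero]
      rw [e]
      refine Lc_le k2 le_rfl ?_
      rw [hG₂, hF₁, sub_zero]
      rw [he₁, he₂] at h2
      exact h2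
    · rw [← valued_algebraMap]
      have e : algebraMap L (w.adicCompletion L) (d₁ * (3 * a' ^ 2 * b' + 3 * δ * b' ^ 3) +
          d₂ * (a' ^ 3 + 3 * (3 * δ) * a' * b' ^ 2) - 3 * (b + 3 * a * c')) =
          G₃ (algebraMap L (w.adicCompletion L) a', algebraMap L (w.adicCompletion L) b',
            algebraMap L (w.adicCompletion L) c', algebraMap L (w.adicCompletion L) d') - 0 := by
        rw [hG₃, hF₂]
        simp only [map_sub, map_add, map_mul, map_pow, map_ofNat, ← hΔ, ← hA, ← hB, ← hD₁, ← hD₂, sub_zero]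
      rw [e]
      refine Lc_le k3 le_rfl ?_
      rw [hG₃, hF₂, sub_zero]
      rw [he₁, he₂] at h3
      exact h3

end H11L
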