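import Pool.Agent.H11.T3L.Df

/-!
ROW Ld (the Galois step; about 190 lines; compare `vs2`, `Ws_gal` in Pool/Agent/H55/T3/Ws.lean).

`v` a valuation of `L`, `W` a valuation of `B ⊇ L`, `s ∈ B`, `s² = 3 δ`; `σ ∈ Aut(L/K)`, `g ∈ Aut(B/K)` extends `σ`, `g s = s`, both preserve the valuations, `σ` has odd order and fixes `δ, a, b`.

PROOF. (0) `v z ≤ exp (-j)` implies `W z ≤ W(3)^j` (`v (z / 3^j) ≤ 1`), `W 3 = (W s)²` as `W δ = 1` (`v δ = 1`, `v δ⁻¹ = 1`), and `W s ≤ 1`, so with `ρ = W s`: `v z ≤ exp (-j)` implies `W z ≤ ρ^(2 j)`; `ρ ≠ 0`. `W (1 + ..)`: `W 3 < 1`? (needed below only in the form `ρ < 1`: `hW3`).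
(1) `odd_close`: `v Y ≤ 1`, `v ((σ Y - Y) (σ Y + Y)) < 1`, `v 2 = 1`, odd order: `v (σ Y - Y) < 1` (copy the argument `hclose` of `vs2`).
(2) First alternative, `t = t₁ + t₂ s ∈ B` (not `0`: as `s ∉ L`.. avoid this: from `W (d t³ - 1) < 1` one gets `d t³ ≠ 0`), `d = d₁ + d₂ s`: `d t³ = 1 + z`, `z = z₁ + z₂ s`, `v z₁ ≤ exp (-2)`, `v z₂ ≤ exp (-1)`, so `W z ≤ ρ³`. `(g d / d) (g t / t)³ = (1 + g z) / (1 + z)`,
    `W (1 + z) = 1`, so `W ((g d/d) (g t/t)³ - 1) = W (g z - z) ≤ ρ³`.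
(3) Second alternative: `X³ + δ b² = - (3 Y² - X³ - δ M²) + 3 (..)` so `v (X³ + δ b²) < 1` (`M = b + 3 a X`, `M² - b²` is divisible by `3`). Apply `σ`: `v ((σ X)³ + δ b²) < 1`, so `v ((σ X)³ - X³) < 1`, `(σ X - X)³ = (σ X)³ - X³ - 3 σX X (σ X - X)`, so `v (σ X - X) < 1`, i.e.
    `≤ exp (-1)` (`le_exp_neg_one`). `σ M - M = 3 a (σ X - X)`: `v ≤ exp (-2)`. `v ((σ X)³ - X³) ≤ exp (-2)` (same formula). From the relation and its `σ`-image: `v (3 (σ Y)² - 3 Y²) ≤ exp (-2)`, so `v ((σ Y)² - Y²) ≤ exp (-1) < 1`, so `v (σ Y - Y) < 1` (1), `≤ exp (-1)`.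
    `Q = 9 Y + 3 M s`, `t = t₁ + t₂ s`: `d t³ = Q + z`, `z = z₁ + z₂ s`, `v z₁, v z₂ ≤ exp (-3)`, `W z ≤ ρ^6`. `v M = 1` (`v b = 1`), `W M = 1`, `W (3 M s) = ρ³`, `W (9 Y) ≤ ρ^4 < ρ³`, so `W Q = ρ³ = W (Q + z)`. `g Q - Q = 9 (σ Y - Y) + 3 (σ M - M) s`: `W ≤ ρ^6`
    (`9 (σ Y - Y)`: `v ≤ exp (-3)`; `3 (σ M - M)`: `v ≤ exp (-3)`). `(g d/d)(g t/t)³ - 1 = (g Q - Q + g z - z) / (Q + z)`, `W ≤ ρ^6 / ρ^3 = ρ³`.
-/

set_option autoImplicit false
open scoped Classical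

open IsDedekindDomain NumberField WithZero Pool.Agent.H10

namespace H11L

open H55T3

section LdAux

variable {L : Type} [Field L] {v : Valuation L (WithZero (Multiplicative ℤ))}

theorem Ld_mul {x y : L} {m n k : ℤ} (hx : v x ≤ exp m) (hy : v y ≤ exp n) (hk : m + n = k) :
    v (x * y) ≤ exp k := by
  rw [map_mul, ← hk, exp_add]
  exact mul_le_mul' hx hy

theorem Ld_mono {x : L} {m n : ℤ} (hx : v x ≤ exp m) (h : m ≤ n) : v x ≤ exp n :=
  hx.trans (exp_le_exp.2 h)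

theorem Ld_le0 {x : L} (hx : v x ≤ 1) : v x ≤ exp (0 : ℤ) := by rw [exp_zero]; exact hx

theorem Ld_le1 {x : L} (hx : v x ≤ exp (0 : ℤ)) : v x ≤ 1 := by rw [exp_zero] at hx; exact hx

theorem Ld_lt {x : L} (hx : v x ≤ exp (-1 : ℤ)) : v x < 1 := hx.trans_lt exp_neg_lt_one

theorem Ld_two (h3 : v 3 = exp (-1 : ℤ)) : v 2 = 1 := by
  have e1 : (2 : L) = -1 + 3 := by norm_num
  have h1 : v (1 : L) = 1 := map_one v
  rw [e1, Valuation.map_add_eq_of_lt_left, Valuation.map_neg, h1]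
  rw [Valuation.map_neg, h1, h3]
  exact exp_neg_lt_one

end LdAux

theorem odd_close {K L : Type} [Field K] [Field L] [Algebra K L] {v : Valuation L (WithZero (Multiplicative ℤ))} {σ : L ≃ₐ[K] L}
    (hσ : ∀ x, v (σ x) = v x) (hodd : Odd (orderOf σ)) (h2 : v 2 = 1) {Y : L} (hY : v Y ≤ 1) (h : v ((σ Y - Y) * (σ Y + Y)) < 1) :
    v (σ Y - Y) < 1 := by
  by_contra hcon
  rw [not_lt] at hcon
  have hσY : v (σ Y) ≤ 1 := by rw [hσ]; exact hY
  have h5 : v (σ Y - Y) = 1 := le_antisymm (V_sub_le hσY hY) hcon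
  rw [map_mul, h5, one_mul] at h
  have hind : ∀ j : ℕ, v ((σ ^ j) Y - (-1) ^ j * Y) < 1 := by
    intro j
    induction j with
    | zero =>
      rw [pow_zero, pow_zero, AlgEquiv.one_apply, one_mul, sub_self, map_zero]
      exact one_pos
    | succ j ih =>
      have e1 : (σ ^ (j + 1)) Y - (-1) ^ (j + 1) * Y =
          σ ((σ ^ j) Y - (-1) ^ j * Y) + (-1) ^ j * (σ Y + Y) := by
        rw [pow_succ', AlgEquiv.mul_apply, map_sub, map_mul, map_pow, map_neg, map_one]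
        ring
      rw [e1]
      refine V_add_lt (by rw [hσ]; exact ih) (V_mul_lt ?_ h)
      rw [map_pow, Valuation.map_neg, map_one, one_pow]
  have h6 := hind (orderOf σ)
  rw [pow_orderOf_eq_one, AlgEquiv.one_apply, hodd.neg_one_pow] at h6
  have e2 : Y - -1 * Y = 2 * Y := by ring
  rw [e2, map_mul, h2, one_mul] at h6
  have h7 : v (σ Y) < 1 := by rw [hσ]; exact h6
  exact absurd (V_sub_lt h7 h6) (not_lt.2 hcon)

theorem Ld_L {K L : Type} [Field K] [Field L] [Algebra K L] {v : Valuation L (WithZero (Multiplicative ℤ))}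
    (h3 : v 3 = exp (-1 : ℤ)) {σ : L ≃ₐ[K] L} (hσ : ∀ x, v (σ x) = v x) (hodd : Odd (orderOf σ))
    {δ a b X Y : L} (hδ : v δ = 1) (hδσ : σ δ = δ) (haσ : σ a = a) (hbσ : σ b = b) (ha : v a ≤ 1)
    (hb : v b ≤ 1) (hX : v X ≤ 1) (hY : v Y ≤ 1)
    (h : v (3 * Y ^ 2 - X ^ 3 - δ * (b + 3 * a * X) ^ 2) ≤ exp (-2 : ℤ)) :
    v (σ Y - Y) ≤ exp (-1 : ℤ) ∧ v (σ X - X) ≤ exp (-1 : ℤ) := by
  have hs3 : σ (3 : L) = 3 := map_ofNat σ 3
  obtain ⟨M, hM⟩ : ∃ M : L, M = b + 3 * a * X := ⟨_, rfl⟩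
  rw [← hM] at h
  have haX : v (a * X) ≤ exp (0 : ℤ) := Ld_mul (Ld_le0 ha) (Ld_le0 hX) (by norm_num)
  have h3' : v 3 ≤ exp (-1 : ℤ) := h3.le
  have h3aX : v (3 * (a * X)) ≤ exp (-1 : ℤ) := Ld_mul h3' haX (by norm_num)
  have hb0 := Ld_le0 hb
  have hMb : M - b = 3 * (a * X) := by rw [hM]; ring
  have hM0 : v M ≤ exp (0 : ℤ) := by
    have : M = b + 3 * (a * X) := by rw [hM]; ring
    rw [this]
    exact V_add_le hb0 (Ld_mono h3aX (by norm_num))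
  have hδ0 : v δ ≤ exp (0 : ℤ) := Ld_le0 hδ.le
  have hX0 := Ld_le0 hX
  have hY0 := Ld_le0 hY
  have hσX0 : v (σ X) ≤ exp (0 : ℤ) := by rw [hσ]; exact hX0
  have hσM0 : v (σ M) ≤ exp (0 : ℤ) := by rw [hσ]; exact hM0
  have hY2 : v (3 * Y ^ 2) ≤ exp (-1 : ℤ) := by
    rw [pow_two]
    exact Ld_mul h3' (Ld_mul hY0 hY0 rfl) (by norm_num)
  -- X^3 + δ b^2
  have hXb : v (X ^ 3 + δ * b ^ 2) ≤ exp (-1 : ℤ) := by
    have e : X ^ 3 + δ * b ^ 2 = 3 * Y ^ 2 - (3 * Y ^ 2 - X ^ 3 - δ * M ^ 2) - δ * ((M - b) * (M + b)) := by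
      ring
    rw [e]
    refine V_sub_le (V_sub_le hY2 (Ld_mono h (by norm_num))) ?_
    rw [hMb]
    exact Ld_mul hδ0 (Ld_mul h3aX (V_add_le hM0 hb0) rfl) (by norm_num)
  have hσXb : v ((σ X) ^ 3 + δ * b ^ 2) ≤ exp (-1 : ℤ) := by
    have e : (σ X) ^ 3 + δ * b ^ 2 = σ (X ^ 3 + δ * b ^ 2) := by
      rw [map_add, map_mul, map_pow, map_pow, hδσ, hbσ]
    rw [e, hσ]
    exact hXb
  have hX1 : v (σ X - X) ≤ exp (-1 : ℤ) := by
    apply le_exp_neg_one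
    have h5 : v ((σ X - X) ^ 3) ≤ exp (-1 : ℤ) := by
      have e : (σ X - X) ^ 3 = ((σ X) ^ 3 + δ * b ^ 2) - (X ^ 3 + δ * b ^ 2)
          - 3 * (σ X * (X * (σ X - X))) := by ring
      rw [e]
      refine V_sub_le (V_sub_le hσXb hXb) ?_
      exact Ld_mul h3' (Ld_mul hσX0 (Ld_mul hX0 (V_sub_le hσX0 hX0) rfl) rfl) (by norm_num)
    by_contra hcon
    rw [not_lt] at hcon
    have h6 := Ld_lt h5
    rw [map_pow] at h6
    exact absurd h6 (not_lt.2 (one_le_pow₀ hcon))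
  have hX3 : v ((σ X) ^ 3 - X ^ 3) ≤ exp (-2 : ℤ) := by
    have e : (σ X) ^ 3 - X ^ 3 = (σ X - X) * ((σ X - X) * (σ X - X)) + 3 * (σ X * (X * (σ X - X))) := by ring
    rw [e]
    refine V_add_le ?_ ?_
    · exact Ld_mono (Ld_mul hX1 (Ld_mul hX1 hX1 rfl) rfl) (by norm_num)
    · exact Ld_mul h3' (Ld_mul hσX0 (Ld_mul hX0 hX1 rfl) rfl) (by norm_num)
  have hM1 : v (σ M - M) ≤ exp (-2 : ℤ) := by
    have e : σ M - M = 3 * (a * (σ X - X)) := by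
      rw [hM, map_add, map_mul, map_mul, hs3, haσ, hbσ]
      ring
    rw [e]
    exact Ld_mul h3' (Ld_mul (Ld_le0 ha) hX1 rfl) (by norm_num)
  have hrel : v (3 * (σ Y) ^ 2 - (σ X) ^ 3 - δ * (σ M) ^ 2) ≤ exp (-2 : ℤ) := by
    have e : 3 * (σ Y) ^ 2 - (σ X) ^ 3 - δ * (σ M) ^ 2 = σ (3 * Y ^ 2 - X ^ 3 - δ * M ^ 2) := by
      rw [map_sub, map_sub, map_mul, map_mul, map_pow, map_pow, map_pow, hs3, hδσ]
    rw [e, hσ]
    exact h
  have h3Y : v (3 * ((σ Y - Y) * (σ Y + Y))) ≤ exp (-2 : ℤ) := by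
    have e : 3 * ((σ Y - Y) * (σ Y + Y)) = (3 * (σ Y) ^ 2 - (σ X) ^ 3 - δ * (σ M) ^ 2)
        - (3 * Y ^ 2 - X ^ 3 - δ * M ^ 2) + ((σ X) ^ 3 - X ^ 3) + δ * ((σ M - M) * (σ M + M)) := by ring
    rw [e]
    refine V_add_le (V_add_le (V_sub_le hrel h) hX3) ?_
    exact Ld_mul hδ0 (Ld_mul hM1 (V_add_le hσM0 hM0) rfl) (by norm_num)
  have hYY : v ((σ Y - Y) * (σ Y + Y)) < 1 := by
    rw [map_mul v 3, h3] at h3Y
    by_contra hcon
    rw [not_lt] at hcon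
    have h7 : (exp (-1 : ℤ) : WithZero (Multiplicative ℤ)) ≤ exp (-2 : ℤ) :=
      (le_mul_of_one_le_right' hcon).trans h3Y
    rw [exp_le_exp] at h7
    norm_num at h7
  exact ⟨le_exp_neg_one (odd_close hσ hodd (Ld_two h3) hY hYY), hX1⟩

theorem Ld_fin {K B : Type} [Field K] [Field B] [Algebra K B] {W : Valuation B (WithZero (Multiplicative ℤ))}
    {g : B ≃ₐ[K] B} {D T : B} {c r : WithZero (Multiplicative ℤ)} (hc : W (D * T ^ 3) = c) (hc0 : c ≠ 0)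
    (h : W (g (D * T ^ 3) - D * T ^ 3) ≤ r * c) : W (g D / D * (g T / T) ^ 3 - 1) ≤ r := by
  have hZ : D * T ^ 3 ≠ 0 := by
    intro h0
    rw [h0, map_zero] at hc
    exact hc0 hc.symm
  have hD : D ≠ 0 := left_ne_zero_of_mul hZ
  have hT : T ≠ 0 := fun h0 => hZ (by rw [h0]; ring)
  have e : g D / D * (g T / T) ^ 3 - 1 = (g (D * T ^ 3) - D * T ^ 3) / (D * T ^ 3) := by
    rw [map_mul, map_pow]
    field_simp
  rw [e, map_div₀, hc]
  exact div_le_of_le_mul₀ (zero_le) (zero_le) h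

theorem clsM_gal {K L B : Type} [Field K] [Field L] [Field B] [CharZero L] [Algebra K L] [Algebra K B] [Algebra L B]
    {v : Valuation L (WithZero (Multiplicative ℤ))} {W : Valuation B (WithZero (Multiplicative ℤ))} (h3 : v 3 = exp (-1 : ℤ))
    (hW3 : W 3 < 1) (hvW : ∀ z : L, v z ≤ 1 → W (algebraMap L B z) ≤ 1) {σ : L ≃ₐ[K] L} {g : B ≃ₐ[K] B}
    (hgσ : ∀ z : L, g (algebraMap L B z) = algebraMap L B (σ z)) (hσ : ∀ x, v (σ x) = v x) (hg : ∀ x, W (g x) = W x)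
    (hodd : Odd (orderOf σ)) {δ a b : L} (hδ : v δ = 1) (hδσ : σ δ = δ) (haσ : σ a = a) (hbσ : σ b = b) (ha : v a ≤ 1) (hb : v b ≤ 1)
    {s : B} (hs : s ^ 2 = algebraMap L B (3 * δ)) (hgs : g s = s) {d₁ d₂ : L}
    (H : ClsM v δ a b d₁ d₂) :
    ∃ t : B, W (g (algebraMap L B d₁ + algebraMap L B d₂ * s) / (algebraMap L B d₁ + algebraMap L B d₂ * s) * t ^ 3 - 1) ≤ W s ^ 3 := by
  have h3L : (3 : L) ≠ 0 := by norm_num
  have hi3 : algebraMap L B 3 = 3 := map_ofNat _ 3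
  have hinj : Function.Injective (algebraMap L B) := (algebraMap L B).injective
  have h3B : (3 : B) ≠ 0 := by
    rw [← hi3]
    exact fun h0 => h3L (hinj (h0.trans (map_zero _).symm))
  have hunit : ∀ z : L, v z = 1 → W (algebraMap L B z) = 1 := by
    intro z hz
    have hz0 : z ≠ 0 := by
      intro h0
      rw [h0, map_zero] at hz
      exact zero_ne_one hz
    have h5 := hvW z hz.le
    have h6 := hvW z⁻¹ (by rw [map_inv₀, hz, inv_one])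
    rw [map_inv₀, map_inv₀] at h6
    refine le_antisymm h5 ?_
    have hW0 : W (algebraMap L B z) ≠ 0 := by
      rw [Ne, map_eq_zero, map_eq_zero]
      exact hz0
    exact (inv_le_one₀ (zero_lt_iff.2 hW0)).1 h6
  obtain ⟨ρ, hρ⟩ : ∃ ρ, ρ = W s := ⟨_, rfl⟩
  have hWs : W 3 = ρ ^ 2 := by
    rw [hρ, ← map_pow, hs, map_mul, map_mul, hi3, hunit δ hδ, mul_one]
  have hρ0 : ρ ≠ 0 := by
    intro h0
    rw [h0] at hWs
    have : W 3 ≠ 0 := (Valuation.ne_zero_iff W).2 h3B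
    exact this (by rw [hWs, pow_two, mul_zero])
  have hρ1 : ρ < 1 := by
    by_contra hcon
    rw [not_lt] at hcon
    rw [hWs] at hW3
    exact absurd hW3 (not_lt.2 (one_le_pow₀ hcon))
  have hk : ∀ (j : ℕ) (z : L), v z ≤ exp (-(j : ℤ)) → W (algebraMap L B z) ≤ ρ ^ (2 * j) := by
    intro j
    induction j with
    | zero =>
      intro z hz
      rw [mul_zero, pow_zero]
      apply hvW
      rw [Nat.cast_zero, neg_zero, exp_zero] at hz
      exact hz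
    | succ j ih =>
      intro z hz
      have e1 : z = 3 * (z / 3) := by field_simp
      have h5 : v (z / 3) ≤ exp (-(j : ℤ)) := by
        rw [map_div₀, h3]
        apply div_le_of_le_mul₀ zero_le zero_le
        rw [← exp_add]
        refine hz.trans (le_of_eq ?_)
        congr 1
        push_cast
        ring
      have h6 := ih _ h5
      rw [e1, map_mul, hi3, map_mul, hWs, Nat.mul_succ, Nat.add_comm, pow_add]
      exact mul_le_mul' le_rfl h6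
  have hpow : ∀ {m n : ℕ}, m ≤ n → ρ ^ n ≤ ρ ^ m := fun h => pow_le_pow_right_of_le_one' hρ1.le h
  have hpow' : ∀ {m n : ℕ}, m < n → ρ ^ n < ρ ^ m := fun h =>
    pow_lt_pow_right_of_lt_one₀ (zero_lt_iff.2 hρ0) hρ1 h
  -- bound for z = z1 + z2 s
  have hz12 : ∀ (k : ℕ) (z₁ z₂ : L), W (algebraMap L B z₁) ≤ ρ ^ k → W (algebraMap L B z₂) * ρ ≤ ρ ^ k →
      W (algebraMap L B z₁ + algebraMap L B z₂ * s) ≤ ρ ^ k := by
    intro k z₁ z₂ h5 h6
    refine V_add_le h5 ?_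
    rw [map_mul, ← hρ]
    exact h6
  have hcube : ∀ {t₁ t₂ e₁ e₂ : L}, Cube2 (3 * δ) e₁ e₂ t₁ t₂ →
      (algebraMap L B t₁ + algebraMap L B t₂ * s) ^ 3 = algebraMap L B e₁ + algebraMap L B e₂ * s := by
    intro t₁ t₂ e₁ e₂ h5
    obtain ⟨h6, h7⟩ := h5
    rw [h6, h7]
    simp only [map_add, map_mul, map_pow, hi3]
    rw [map_mul, hi3] at hs
    linear_combination (3 * algebraMap L B t₁ * algebraMap L B t₂ ^ 2 + algebraMap L B t₂ ^ 3 * s) * hs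
  have hprod : ∀ {e₁ e₂ : L}, (algebraMap L B d₁ + algebraMap L B d₂ * s) *
      (algebraMap L B e₁ + algebraMap L B e₂ * s) =
      algebraMap L B (d₁ * e₁ + 3 * δ * d₂ * e₂) + algebraMap L B (d₁ * e₂ + d₂ * e₁) * s := by
    intro e₁ e₂
    simp only [map_add, map_mul, hi3]
    rw [map_mul, hi3] at hs
    linear_combination (algebraMap L B d₂ * algebraMap L B e₂) * hs
  rw [← hρ]
  rcases H with ⟨t₁, t₂, e₁, e₂, -, hC, h5, h6⟩ | ⟨hVb, t₁, t₂, e₁, e₂, X, Y, -, hC, hX, hY, hrel, h5, h6⟩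
  · obtain ⟨z₁, hz₁⟩ : ∃ z, z = d₁ * e₁ + 3 * δ * d₂ * e₂ - 1 := ⟨_, rfl⟩
    obtain ⟨z₂, hz₂⟩ : ∃ z, z = d₁ * e₂ + d₂ * e₁ := ⟨_, rfl⟩
    rw [← hz₁] at h5
    rw [← hz₂] at h6
    obtain ⟨z, hz⟩ : ∃ z, z = algebraMap L B z₁ + algebraMap L B z₂ * s := ⟨_, rfl⟩
    have hWz : W z ≤ ρ ^ 3 := by
      rw [hz]
      apply hz12
      · exact (hk 2 z₁ (by exact_mod_cast h5)).trans (hpow (by norm_num))
      · have h7 := hk 1 z₂ (by exact_mod_cast h6)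
        rw [pow_succ ρ 2]
        exact mul_le_mul' h7 le_rfl
    have hZ : (algebraMap L B d₁ + algebraMap L B d₂ * s) *
        (algebraMap L B t₁ + algebraMap L B t₂ * s) ^ 3 = 1 + z := by
      rw [hcube hC, hprod, ← hz₂, hz, hz₁, map_sub, map_one]
      ring
    refine ⟨g (algebraMap L B t₁ + algebraMap L B t₂ * s) / (algebraMap L B t₁ + algebraMap L B t₂ * s), ?_⟩
    have hW1 : W (1 + z) = 1 := by
      apply Valuation.map_one_add_of_lt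
      exact hWz.trans_lt (by rw [← pow_zero ρ]; exact hpow' (by norm_num))
    refine Ld_fin (c := 1) (by rw [hZ]; exact hW1) one_ne_zero ?_
    rw [hZ, mul_one]
    have e3 : g (1 + z) - (1 + z) = g z - z := by
      rw [map_add, map_one]
      ring
    rw [e3]
    exact V_sub_le (by rw [hg]; exact hWz) hWz
  · obtain ⟨hσY, hσX⟩ := Ld_L h3 hσ hodd hδ hδσ haσ hbσ ha hb hX hY hrel
    have hs3 : σ (3 : L) = 3 := map_ofNat σ 3
    have hs9 : σ (9 : L) = 9 := map_ofNat σ 9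
    have h3' : v 3 ≤ exp (-1 : ℤ) := h3.le
    obtain ⟨M, hM⟩ : ∃ M : L, M = b + 3 * a * X := ⟨_, rfl⟩
    rw [← hM] at h6
    have haX : v (a * X) ≤ exp (0 : ℤ) := Ld_mul (Ld_le0 ha) (Ld_le0 hX) (by norm_num)
    have h3aX : v (3 * (a * X)) ≤ exp (-1 : ℤ) := Ld_mul h3' haX (by norm_num)
    have hVM : v M = 1 := by
      have e4 : M = b + 3 * (a * X) := by rw [hM]; ring
      rw [e4, Valuation.map_add_eq_of_lt_left, hVb]
      rw [hVb]
      exact Ld_lt h3aX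
    have hM1 : v (σ M - M) ≤ exp (-2 : ℤ) := by
      have e : σ M - M = 3 * (a * (σ X - X)) := by
        rw [hM, map_add, map_mul, map_mul, hs3, haσ, hbσ]
        ring
      rw [e]
      exact Ld_mul h3' (Ld_mul (Ld_le0 ha) hσX rfl) (by norm_num)
    obtain ⟨z₁, hz₁⟩ : ∃ z, z = d₁ * e₁ + 3 * δ * d₂ * e₂ - 9 * Y := ⟨_, rfl⟩
    obtain ⟨z₂, hz₂⟩ : ∃ z, z = d₁ * e₂ + d₂ * e₁ - 3 * M := ⟨_, rfl⟩
    rw [← hz₁] at h5
    rw [← hz₂] at h6
    obtain ⟨z, hz⟩ : ∃ z, z = algebraMap L B z₁ + algebraMap L B z₂ * s := ⟨_, rfl⟩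
    obtain ⟨Q, hQ⟩ : ∃ Q, Q = algebraMap L B (9 * Y) + algebraMap L B (3 * M) * s := ⟨_, rfl⟩
    have hk3 : ∀ z₁ z₂ : L, v z₁ ≤ exp (-3 : ℤ) → v z₂ ≤ exp (-3 : ℤ) →
        W (algebraMap L B z₁ + algebraMap L B z₂ * s) ≤ ρ ^ 6 := by
      intro z₁ z₂ h7 h8
      apply hz12
      · exact hk 3 z₁ (by exact_mod_cast h7)
      · have h9 := hk 3 z₂ (by exact_mod_cast h8)
        calc W (algebraMap L B z₂) * ρ ≤ ρ ^ 6 * 1 := mul_le_mul' h9 hρ1.le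
          _ = ρ ^ 6 := mul_one _
    have hWz : W z ≤ ρ ^ 6 := by
      rw [hz]
      exact hk3 z₁ z₂ h5 h6
    have hWQ : W Q = ρ ^ 3 := by
      have h7 : W (algebraMap L B (3 * M) * s) = ρ ^ 3 := by
        rw [map_mul, map_mul, map_mul, hi3, hWs, hunit M hVM, mul_one, ← hρ, ← pow_succ]
      have h8 : W (algebraMap L B (9 * Y)) ≤ ρ ^ 4 := by
        refine hk 2 _ ?_
        have e5 : 9 * Y = 3 * (3 * Y) := by ring
        rw [e5]
        exact Ld_mul h3' (Ld_mul h3' (Ld_le0 hY) rfl) (by norm_num)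
      rw [hQ, Valuation.map_add_eq_of_lt_right, h7]
      rw [h7]
      exact h8.trans_lt (hpow' (by norm_num))
    have hZ : (algebraMap L B d₁ + algebraMap L B d₂ * s) *
        (algebraMap L B t₁ + algebraMap L B t₂ * s) ^ 3 = Q + z := by
      rw [hcube hC, hprod, hz, hQ, hz₁, hz₂, map_sub, map_sub]
      ring
    refine ⟨g (algebraMap L B t₁ + algebraMap L B t₂ * s) / (algebraMap L B t₁ + algebraMap L B t₂ * s), ?_⟩
    have hWQz : W (Q + z) = ρ ^ 3 := by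
      rw [Valuation.map_add_eq_of_lt_left, hWQ]
      rw [hWQ]
      exact hWz.trans_lt (hpow' (by norm_num))
    refine Ld_fin (c := ρ ^ 3) (by rw [hZ]; exact hWQz) (pow_ne_zero 3 hρ0) ?_
    rw [hZ, ← pow_add]
    have e3 : g (Q + z) - (Q + z) = (g Q - Q) + (g z - z) := by
      rw [map_add]
      ring
    rw [e3]
    refine V_add_le ?_ (V_sub_le (by rw [hg]; exact hWz) hWz)
    have e4 : g Q - Q = algebraMap L B (9 * (σ Y - Y)) + algebraMap L B (3 * (σ M - M)) * s := by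
      rw [hQ, map_add, map_mul g, hgs, hgσ, hgσ, map_mul σ, map_mul σ, hs9, hs3]
      simp only [map_mul, map_sub]
      ring
    rw [e4]
    apply hk3
    · have e5 : 9 * (σ Y - Y) = 3 * (3 * (σ Y - Y)) := by ring
      rw [e5]
      exact Ld_mul h3' (Ld_mul h3' hσY rfl) (by norm_num)
    · exact Ld_mul h3' hM1 (by norm_num)

end H11L
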