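import Pool.Agent.H11.T3L.Df

/-!
ROW Le (automorphisms of odd order preserve the places of `B` above a bad place; about 110 lines).

PROOF. `exists_conj g W` (Pool/Agent/H10/StarGal.lean): `W'` with `W (g x) = W' x` for all `x : B`, and `W'`, `W` contain the same elements of `𝓞 K`. Let `w = W ∩ 𝓞 L`, `w' = W' ∩ 𝓞 L`: both contain the ideal `W ∩ 𝓞 K` of `𝓞 K`, so `w = w'` (`hu`).
`B/L` is Galois and `W, W'` lie above the same prime of `𝓞 L`, so there is `h : B ≃ₐ[L] B` mapping one to the other (`Ideal.exists_smul_eq_of_isGaloisGroup` or `exists_map_eq_of_isGalois`/`IsInvariant`; transitivity of the Galois group on the primes above: grep Mathlib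
`exists_comap_galRestrict_eq` / `Ideal.exists_map_eq_of_isGalois`), and then `W' x = W (h x)` for all `x` (or `W (h⁻¹ x)`; as in the proof of `exists_conj`, via ideals: the place `W''` with `W (h x) = W'' x` given by `exists_conj h W` (over `L`) satisfies `W''.asIdeal = W.asIdeal.comap h`).
`|Gal(B/L)| = 2`: `h = 1` or `h = τ`, the other element. If `h = 1` done. If `h = τ`: `τ² = 1`, and `g τ g⁻¹` (as an automorphism over `L`: `L/K` is Galois, so `g` maps `L` to itself) is an element `≠ 1` of `Gal(B/L)`, so it is `τ`: `g (τ x) = τ (g x)`. So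
`W (g (g x)) = W (τ (g x)) = W (g (τ x)) = W (τ (τ x)) = W x` (apply `W (g y) = W (τ y)` twice). `g` has odd order `2 k + 1`: `g = g^(2 (k+1))`, so `W (g x) = W (g^(2(k+1)) x) = W x`.
-/

set_option autoImplicit false
open scoped Classical

open IsDedekindDomain NumberField WithZero Pool.Agent.H10

namespace H11L

/-- The places of `B` above the same place of `L` are conjugate over `L`. -/
theorem Le_trans {L B : Type} [Field L] [NumberField L] [Field B] [NumberField B] [Algebra L B]
    [IsGalois L B] (W W' : HeightOneSpectrum (𝓞 B))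
    (h : W'.asIdeal.under (𝓞 L) = W.asIdeal.under (𝓞 L)) :
    ∃ γ : B ≃ₐ[L] B, ∀ x, W.valuation B (γ x) = W'.valuation B x := by
  open Pointwise in
  obtain ⟨γ, hγ⟩ := Algebra.IsInvariant.exists_smul_of_under_eq (𝓞 L) (𝓞 B) (B ≃ₐ[L] B)
    W'.asIdeal W.asIdeal h
  refine ⟨γ, ?_⟩
  obtain ⟨W'', hW'', -⟩ := exists_conj γ W
  have h1 : ∀ x : 𝓞 B, x ∈ W''.asIdeal ↔
      RingOfIntegers.mapRingEquiv (γ : B ≃+* B) x ∈ W.asIdeal := by
    intro x
    rw [← HeightOneSpectrum.valuation_lt_one_iff_mem (K := B),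
      ← HeightOneSpectrum.valuation_lt_one_iff_mem (K := B)]
    exact iff_of_eq (congrArg (fun t => t < 1) (hW'' (x : B)).symm)
  have h2 : W'' = W' := by
    apply HeightOneSpectrum.ext
    ext x
    open Pointwise in
    rw [h1, hγ, Ideal.mem_pointwise_smul_iff_inv_smul_mem]
    have e : γ⁻¹ • RingOfIntegers.mapRingEquiv (γ : B ≃+* B) x = x := by
      apply RingOfIntegers.ext
      exact γ.symm_apply_apply (x : B)
    rw [e]
  rw [← h2]
  exact hW''

theorem val_inv_odd {K L B : Type} [Field K] [NumberField K] [Field L] [NumberField L] [Field B] [NumberField B] [Algebra K L]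
    [Algebra L B] [Algebra K B] [IsScalarTower K L B] [IsGalois K L] [IsGalois K B] [IsGalois L B] (h2 : Module.finrank L B = 2)
    (W : HeightOneSpectrum (𝓞 B)) (hu : UniqueOver K L (W.asIdeal.under (𝓞 K))) (g : B ≃ₐ[K] B) (hodd : Odd (orderOf g)) (x : B) :
    W.valuation B (g x) = W.valuation B x := by
  obtain ⟨W', h3, h4⟩ := exists_conj g W
  have hsc : ∀ y : 𝓞 K, algebraMap (𝓞 L) (𝓞 B) (algebraMap (𝓞 K) (𝓞 L) y) =
      algebraMap (𝓞 K) (𝓞 B) y := by
    intro y
    apply RingOfIntegers.coe_injective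
    exact (IsScalarTower.algebraMap_apply K L B (y : K)).symm
  have hunder : W'.asIdeal.under (𝓞 L) = W.asIdeal.under (𝓞 L) := by
    have i1 : W'.asIdeal.IsPrime := W'.isPrime
    have i2 : W.asIdeal.IsPrime := W.isPrime
    refine hu _ _ (Ideal.IsPrime.comap _) (Ideal.IsPrime.comap _) ?_ ?_
    · rw [Ideal.map_le_iff_le_comap]
      intro y hy
      rw [Ideal.mem_comap]
      change algebraMap (𝓞 L) (𝓞 B) (algebraMap (𝓞 K) (𝓞 L) y) ∈ W'.asIdeal
      rw [hsc, h4]
      exact hy
    · rw [Ideal.map_le_iff_le_comap]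
      intro y hy
      rw [Ideal.mem_comap]
      change algebraMap (𝓞 L) (𝓞 B) (algebraMap (𝓞 K) (𝓞 L) y) ∈ W.asIdeal
      rw [hsc]
      exact hy
  obtain ⟨γ, hγ⟩ := Le_trans (L := L) W W' hunder
  have hgγ : ∀ x, W.valuation B (g x) = W.valuation B (γ x) := fun x => by rw [h3, hγ]
  by_cases h1 : γ = 1
  · rw [hgγ, h1]
    rfl
  have hfd : FiniteDimensional L B := Module.Finite.of_restrictScalars_finite ℚ L B
  have hcard : Nat.card (B ≃ₐ[L] B) = 2 := by rw [IsGalois.card_aut_eq_finrank, h2]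
  have hfin : Finite (B ≃ₐ[L] B) := inferInstance
  have hsq : γ ^ 2 = 1 := by rw [← hcard]; exact pow_card_eq_one'
  -- `g` commutes with `γ`
  have hcomm : ∀ x, γ (g x) = g (γ x) := by
    let ρ : L ≃ₐ[K] L := AlgEquiv.restrictNormal g⁻¹ L
    have hρ : ∀ y, g⁻¹ (algebraMap L B y) = algebraMap L B (ρ y) := fun y =>
      (AlgEquiv.restrictNormal_commutes g⁻¹ L y).symm
    let τ : B ≃ₐ[L] B :=
      { (g⁻¹ : B ≃ₐ[K] B).trans ((γ.restrictScalars K).trans g) with
        commutes' := by
          intro y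
          change g (γ (g⁻¹ (algebraMap L B y))) = algebraMap L B y
          rw [hρ, γ.commutes, ← hρ]
          exact g.apply_symm_apply _ }
    have hτ : ∀ x, τ x = g (γ (g⁻¹ x)) := fun x => rfl
    have hgg : ∀ x, g⁻¹ (g x) = x := fun x => g.symm_apply_apply x
    have hτ1 : τ ≠ 1 := by
      intro h
      apply h1
      ext x
      have h5 := hτ (g x)
      rw [h, hgg] at h5
      exact (g.injective h5).symm
    have hτγ : τ = γ := by
      by_contra hne
      have h5 : 3 ≤ Nat.card (B ≃ₐ[L] B) := by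
        have h6 : Set.ncard ({1, γ, τ} : Set (B ≃ₐ[L] B)) = 3 :=
          Set.ncard_eq_three.2 ⟨1, γ, τ, Ne.symm h1, Ne.symm hτ1, Ne.symm hne, rfl⟩
        rw [← h6, ← Set.ncard_univ]
        exact Set.ncard_le_ncard (Set.subset_univ _) Set.finite_univ
      omega
    intro x
    have h5 := hτ (g x)
    rw [hτγ, hgg] at h5
    exact h5
  have hγγ : ∀ x, γ (γ x) = x := by
    intro x
    have h5 := congrArg (fun f : B ≃ₐ[L] B => f x) hsq
    rw [pow_two] at h5
    exact h5
  have hgg2 : ∀ x, W.valuation B (g (g x)) = W.valuation B x := by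
    intro x
    rw [hgγ, hcomm, hgγ, hγγ]
  have hpow : ∀ (m : ℕ) (x : B), W.valuation B ((g ^ (2 * m)) x) = W.valuation B x := by
    intro m
    induction m with
    | zero => intro x; rfl
    | succ m ih =>
      intro x
      rw [mul_add, mul_one, add_comm, pow_add, AlgEquiv.mul_apply, pow_two, AlgEquiv.mul_apply,
        hgg2, ih]
  obtain ⟨k, hk⟩ := hodd
  have h5 : g ^ (2 * (k + 1)) = g := by
    have h6 : 2 * (k + 1) = (2 * k + 1) + 1 := by ring
    rw [h6, pow_succ, ← hk, pow_orderOf_eq_one, one_mul]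
  have h6 := hpow (k + 1) x
  rw [h5] at h6
  exact h6

end H11L
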