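import Pool.Agent.H11.T3L.Df

/-!
ROW Lf (places of `B = L(s)` above a place of `L`; about 110 lines).

PROOF. `val_up`: `W` and the place `w` below: `HeightOneSpectrum.valuation_liesOver` (see `RT_val_below` in Pool/Agent/H55/T3/RT.lean): `w(x)^e = W(x)`; so `w x ≤ 1 → W x ≤ 1`.
`val_three_B` (`3 ∤ D`, `B/L` is unramified at `W`): `w 3 = exp (-1)`, `W 3 = (w 3)^e = exp (-e)` with `e` the ramification index; we need `e = 1` (`e ≥ 1` as `3 ∈ W`). Suppose `e ≥ 2`: `W.asIdeal ^ 2` divides `w.asIdeal.map` (every `x ∈ w` has `w x ≤ exp (-1)`, so `W x ≤ exp (-e) ≤ exp (-2)`, so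
`x ∈ W^2`). `s` is integral over `𝓞 L` (`s² = D`), `B = L(s)` (`hgen`: the fixing subgroup of `L(s)` is trivial, Galois correspondence), so `2 s` is in the different `differentIdeal (𝓞 L) (𝓞 B)` (`aeval_derivative_mem_differentIdeal` with `x` = `s`; the minimal
polynomial of `s` over `𝓞 L` is `X² - D` (or `X - s` if `s ∈ L`, impossible unless `B = L`)), and `pow_sub_one_dvd_differentIdeal (𝓞 L) W.asIdeal 2` gives `W.asIdeal ∣ differentIdeal`, so `2 s ∈ W`. But `(2 s)² = 4 D ∉ W` since `3 ∈ W` and `4 D` is prime to `3` (an integer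
prime to `3` is not in `W`).
Other proof (no different): the inertia group. Or: let `τ` generate `Gal(B/L)`; if `e = 2` then (as `e f g = 2`) `W` is the only place above `w` and the residue fields agree, so every `y ∈ 𝓞 B` is congruent modulo `W` to an element of `𝓞 L`, so `τ y - y ∈ W` (`τ W = W`), in particular
`-2 s = τ s - s ∈ W`, contradiction.
-/

set_option autoImplicit false
open scoped Classical

open IsDedekindDomain NumberField WithZero Pool.Agent.H10

namespace H11L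

theorem Lf_under {L B : Type} [Field L] [NumberField L] [Field B] [NumberField B] [Algebra L B]
    (W : HeightOneSpectrum (𝓞 B)) :
    ∃ w : HeightOneSpectrum (𝓞 L), w.asIdeal = W.asIdeal.under (𝓞 L) ∧
      W.asIdeal.LiesOver w.asIdeal ∧ w.asIdeal.ramificationIdx' W.asIdeal ≠ 0 := by
  obtain ⟨w, hw⟩ : ∃ w : HeightOneSpectrum (𝓞 L), w.asIdeal = W.asIdeal.under (𝓞 L) :=
    ⟨⟨W.asIdeal.under (𝓞 L), inferInstance, Ideal.IsIntegral.comap_ne_bot _ W.ne_bot⟩, rfl⟩
  have hl : W.asIdeal.LiesOver w.asIdeal := ⟨hw⟩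
  exact ⟨w, hw, hl, Ideal.IsDedekindDomain.ramificationIdx'_ne_zero_of_liesOver W.asIdeal w.ne_bot⟩

theorem Lf_card {F N : Type} [Field F] [NumberField F] [Field N] [NumberField N] [Algebra F N]
    [IsGalois F N] (w : HeightOneSpectrum (𝓞 F)) (W : HeightOneSpectrum (𝓞 N))
    [W.asIdeal.LiesOver w.asIdeal] :
    Nat.card (W.asIdeal.inertia (N ≃ₐ[F] N)) = w.asIdeal.ramificationIdx' W.asIdeal := by
  have hfin : Finite (𝓞 F ⧸ w.asIdeal) := Ring.HasFiniteQuotients.finiteQuotient w.ne_bot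
  have h1 : Nat.card (W.asIdeal.inertia (N ≃ₐ[F] N)) = w.asIdeal.ramificationIdxIn (𝓞 N) :=
    Ideal.card_inertia_eq_ramificationIdxIn (G := N ≃ₐ[F] N) w.asIdeal W.asIdeal
  rw [Ideal.ramificationIdxIn_eq_ramificationIdx w.asIdeal W.asIdeal (N ≃ₐ[F] N),
    ← Ideal.ramificationIdx'_eq_ramificationIdx w.asIdeal W.asIdeal w.ne_bot] at h1
  exact h1

theorem val_up {L B : Type} [Field L] [NumberField L] [Field B] [NumberField B] [Algebra L B] (W : HeightOneSpectrum (𝓞 B)) :
    ∃ (w : HeightOneSpectrum (𝓞 L)) (e : ℕ), w.asIdeal = W.asIdeal.under (𝓞 L) ∧ e ≠ 0 ∧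
      ∀ x : L, w.valuation L x ^ e = W.valuation B (algebraMap L B x) := by
  obtain ⟨w, hw, hl, he⟩ := Lf_under (L := L) W
  exact ⟨w, _, hw, he, fun x => HeightOneSpectrum.valuation_liesOver B w W x⟩

theorem val_three_B {L B : Type} [Field L] [NumberField L] [Field B] [NumberField B] [Algebra L B] [IsGalois L B] {D : ℤ} (hD : ¬ 3 ∣ D)
    {s : B} (hs : s ^ 2 = (D : B)) (hgen : ∀ g : B ≃ₐ[L] B, g s = s → g = 1)
    (hunr : ∀ w : HeightOneSpectrum (𝓞 L), (3 : 𝓞 L) ∈ w.asIdeal → w.valuation L 3 = exp (-1 : ℤ))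
    (W : HeightOneSpectrum (𝓞 B)) (hW : (3 : 𝓞 B) ∈ W.asIdeal) : W.valuation B 3 = exp (-1 : ℤ) := by
  obtain ⟨w, hw, hl, he⟩ := Lf_under (L := L) W
  have h3w : (3 : 𝓞 L) ∈ w.asIdeal := by
    rw [hw]
    change algebraMap (𝓞 L) (𝓞 B) 3 ∈ W.asIdeal
    rwa [map_ofNat]
  have hint : IsIntegral ℤ s := by
    refine IsIntegral.of_pow (n := 2) (by norm_num) ?_
    rw [hs]
    exact isIntegral_algebraMap (R := ℤ) (A := B) (x := D)
  obtain ⟨s', hs'⟩ : ∃ s' : 𝓞 B, algebraMap (𝓞 B) B s' = s := ⟨⟨s, hint⟩, rfl⟩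
  have hs2 : s' * s' = ((D : ℤ) : 𝓞 B) := by
    apply RingOfIntegers.coe_injective
    rw [map_mul, hs', ← sq, hs, map_intCast]
  have hbot : W.asIdeal.inertia (B ≃ₐ[L] B) = ⊥ := by
    rw [eq_bot_iff]
    intro g hg
    rw [Subgroup.mem_bot]
    apply hgen
    have h1 : (g s) ^ 2 = s ^ 2 := by
      rw [← map_pow, hs, map_intCast]
    rcases sq_eq_sq_iff_eq_or_eq_neg.1 h1 with h2 | h2
    · exact h2
    · exfalso
      have h3 : g • s' - s' ∈ W.asIdeal := hg s'
      have h4 : g • s' = -s' := by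
        apply RingOfIntegers.coe_injective
        change g (algebraMap (𝓞 B) B s') = algebraMap (𝓞 B) B (-s')
        rw [map_neg, hs', h2]
      have h5 : ((4 * D : ℤ) : 𝓞 B) ∈ W.asIdeal := by
        have h6 := W.asIdeal.mul_mem_left (g • s' - s') h3
        have h7 : (g • s' - s') * (g • s' - s') = ((4 * D : ℤ) : 𝓞 B) := by
          rw [h4]
          push_cast
          rw [← hs2]
          ring
        rwa [h7] at h6
      have h8 : IsCoprime (3 : ℤ) (4 * D) :=
        Int.prime_three.irreducible.coprime_iff_not_dvd.2 (by omega)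
      obtain ⟨u, v, huv⟩ := h8
      have h9 : (1 : 𝓞 B) ∈ W.asIdeal := by
        have h10 : (1 : 𝓞 B) = (u : 𝓞 B) * 3 + (v : 𝓞 B) * ((4 * D : ℤ) : 𝓞 B) := by
          have h11 := congrArg (fun z : ℤ => (z : 𝓞 B)) huv
          push_cast at h11 ⊢
          rw [h11]
        rw [h10]
        exact W.asIdeal.add_mem (W.asIdeal.mul_mem_left _ hW) (W.asIdeal.mul_mem_left _ h5)
      exact W.isPrime.ne_top ((Ideal.eq_top_iff_one _).2 h9)
  have hcard := Lf_card w W
  rw [hbot, Subgroup.card_bot] at hcard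
  have hv := HeightOneSpectrum.valuation_liesOver B w W (3 : L)
  rw [← hcard, pow_one, hunr w h3w, map_ofNat] at hv
  exact hv.symm

end H11L
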