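import Pool.Agent.H11.T3L.Df

/-!
ROW Lg (the local condition at a place above three, `3 ∤ D`; about 170 lines, mostly a copy).

PROOF. Copy part (ii) of `k5_arith3` (Pool/Agent/H55/T3/Y1.lean) with `B, W, g` for `L, w, σ`. `V` = `Valued.v` on the completion of `B` at `W`; `W s = 1` (`(W s)² = W D = 1`: an integer prime to three is a unit at `W ∋ 3`).
From `GoodVD` (first alternative, `3 ∤ D`): `i` with `v α ≤ exp (-(i+1))`, `v γ ≤ exp (-(3 i + 5))`, `γ = 27 β - 4 D α³`, `exp (-(3 i + 3)) < v β` for the valuation `v = hv`-compatible: the hypotheses are given directly for `W` (`g1 g2 g3`). Put `a' = s α / 3^(i+1)`,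
`b' = s γ / 3^(3 i + 5)` (in `B`), `t = 3^i`: `s * (α / 3) = t a'`, `s β = t³ (9 b' + 4 a'³)` (as `s³ = D s`), so `locSol_t` (Kdf.lean) turns `H` into `LocSol 1 a' (9 b' + 4 a'^3) d`. `W a' ≤ 1`, `W b' ≤ 1`, not both `< 1` (otherwise `W (s β) ≤ exp (-(3 i + 3))`).
`wa` or `wb` gives `Cls2`, `cls2_descend`, `vs2` with `σ = g` (`g a' = a'`, `g b' = b'`: `g s = s`, `α, β ∈ K`), as in Y1. `W 9 = exp (-2)`.
-/

set_option autoImplicit false
open scoped Classical

open IsDedekindDomain NumberField WithZero Pool.Agent.H10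

namespace H11L

open H55T3

private theorem Lg_sq {F : Type*} [Field F] {V : Valuation F (WithZero (Multiplicative ℤ))} {t : F}
    (h : V t ^ 2 = 1) : V t = 1 := by
  rcases lt_trichotomy (V t) 1 with h1 | h1 | h1
  · have h2 := pow_lt_one₀ zero_le h1 (n := 2) (by norm_num)
    rw [h] at h2
    exact absurd h2 (lt_irrefl _)
  · exact h1
  · have h2 := one_lt_pow₀ h1 (n := 2) (by norm_num)
    rw [h] at h2
    exact absurd h2 (lt_irrefl _)

private theorem Lg_int {F : Type*} [Field F] {V : Valuation F (WithZero (Multiplicative ℤ))}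
    (h3 : V 3 = exp (-1 : ℤ)) {D : ℤ} (hD : ¬ 3 ∣ D) : V (D : F) = 1 := by
  refine le_antisymm (V_int D) (not_lt.1 fun h => ?_)
  have hco : IsCoprime (3 : ℤ) D := by
    rw [Int.isCoprime_iff_gcd_eq_one]
    have h1 := (Int.prime_three.coprime_iff_not_dvd (n := D)).2 hD
    rwa [Int.isCoprime_iff_gcd_eq_one] at h1
  obtain ⟨x, y, hxy⟩ := hco
  have h1 : (x : F) * 3 + y * D = 1 := by exact_mod_cast congrArg (Int.cast : ℤ → F) hxy
  have h2 : V ((x : F) * 3 + y * D) < 1 := by
    refine Valuation.map_add_lt _ ?_ ?_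
    · rw [map_mul, h3]
      exact (mul_le_of_le_one_left' (V_int x)).trans_lt exp_neg_lt_one
    · rw [map_mul]
      exact (mul_le_of_le_one_left' (V_int y)).trans_lt h
  rw [h1, map_one] at h2
  exact lt_irrefl _ h2

theorem loc_unr {K B : Type} [Field K] [NumberField K] [Field B] [NumberField B] [Algebra K B] {D : ℤ} (hD : ¬ 3 ∣ D) {s : B}
    (hs : s ^ 2 = (D : B)) {α β : K} (W : HeightOneSpectrum (𝓞 B)) (hW3 : W.valuation B 3 = exp (-1 : ℤ)) {i : ℕ}
    (g1 : W.valuation B (algebraMap K B α) ≤ exp (-(i + 1 : ℤ)))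
    (g2 : W.valuation B (algebraMap K B (27 * β - 4 * D * α ^ 3)) ≤ exp (-(3 * i + 5 : ℤ)))
    (g3 : exp (-(3 * i + 3 : ℤ)) < W.valuation B (algebraMap K B β)) {d : B} (hd : d ≠ 0)
    (H : LocSol (algebraMap B (W.adicCompletion B) s) (algebraMap B (W.adicCompletion B) (algebraMap K B (α / 3)))
      (algebraMap B (W.adicCompletion B) (algebraMap K B β)) (algebraMap B (W.adicCompletion B) d)) {g : B ≃ₐ[K] B}
    (hg : g s = s) (hodd : Odd (orderOf g)) (hinv : ∀ x, W.valuation B (g x) = W.valuation B x) :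
    ∃ t : B, W.valuation B (g d / d * t ^ 3 - 1) ≤ W.valuation B 9 := by
  have h9 : W.valuation B 9 = exp (-2 : ℤ) := by
    have e : (9 : B) = 3 * 3 := by norm_num
    rw [e, map_mul, hW3, ← exp_add]
    rfl
  rw [h9]
  have h3B : (3 : B) ≠ 0 := by norm_num
  have e3 : Valued.v (3 : W.adicCompletion B) = exp (-1 : ℤ) := by
    rw [valued_ofNat W 3]; exact hW3
  have hdw : algebraMap B (W.adicCompletion B) d ≠ 0 := by
    rw [Ne, map_eq_zero]
    exact hd
  obtain ⟨A, hA⟩ : ∃ A, A = algebraMap K B α := ⟨_, rfl⟩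
  obtain ⟨C, hC⟩ : ∃ C, C = algebraMap K B β := ⟨_, rfl⟩
  have eG : algebraMap K B (27 * β - 4 * D * α ^ 3) = 27 * C - 4 * D * A ^ 3 := by
    rw [hA, hC]
    simp only [map_sub, map_mul, map_pow, map_ofNat, map_intCast]
  have eA3 : algebraMap K B (α / 3) = A / 3 := by rw [map_div₀, map_ofNat, hA]
  have hgA : g A = A := by rw [hA]; exact g.commutes _
  have hgC : g C = C := by rw [hC]; exact g.commutes _
  rw [eG] at g2
  rw [eA3, ← hC] at H
  rw [← hA] at g1
  rw [← hC] at g3
  have vs : W.valuation B s = 1 := by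
    apply Lg_sq
    rw [← map_pow, hs, Lg_int hW3 hD]
  obtain ⟨a', ha'⟩ : ∃ a' : B, a' = s * A / 3 ^ (i + 1) := ⟨_, rfl⟩
  obtain ⟨b', hb'⟩ : ∃ b' : B, b' = s * (27 * C - 4 * D * A ^ 3) / 3 ^ (3 * i + 5) :=
    ⟨_, rfl⟩
  have p3 : (3 : B) ^ i ≠ 0 := pow_ne_zero i h3B
  have ea : s * (A / 3) = 3 ^ i * a' := by
    rw [ha', pow_succ]
    field_simp
  have ec : s * C = (3 ^ i) ^ 3 * (9 * b' + 4 * a' ^ 3) := by
    have p1 : (3 : B) ^ (3 * i + 5) = (3 ^ i) ^ 3 * 243 := by
      rw [pow_add, mul_comm 3 i, pow_mul]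
      norm_num
    have p2 : (3 : B) ^ (i + 1) = 3 ^ i * 3 := pow_succ _ _
    have e1 : (3 ^ i) ^ 3 * (9 * b' + 4 * a' ^ 3) =
        s * (27 * C - 4 * D * A ^ 3) / 27 + 4 * (s * s ^ 2) * A ^ 3 / 27 := by
      rw [hb', ha', p1, p2]
      field_simp
      ring
    rw [e1, hs]
    field_simp
    ring
  have va : W.valuation B a' ≤ 1 := by
    rw [ha', ← exp_zero, Y1_div hW3, map_mul, vs, one_mul]
    exact g1.trans (le_of_eq (congrArg exp (by push_cast; ring)))
  have vb : W.valuation B b' ≤ 1 := by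
    rw [hb', ← exp_zero, Y1_div hW3, map_mul, vs, one_mul]
    exact g2.trans (le_of_eq (congrArg exp (by push_cast; ring)))
  have vab : ¬ (W.valuation B a' < 1 ∧ W.valuation B b' < 1) := by
    rintro ⟨h1, h2⟩
    have q1 : W.valuation B a' ≤ exp (-1 : ℤ) := le_exp_neg_one h1
    have q2 : W.valuation B b' ≤ exp (-1 : ℤ) := le_exp_neg_one h2
    have q3 : W.valuation B (9 * b' + 4 * a' ^ 3) ≤ exp (-3 : ℤ) := by
      refine (Valuation.map_add _ _ _).trans (max_le ?_ ?_)
      · rw [map_mul, h9]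
        calc exp (-2 : ℤ) * W.valuation B b' ≤ exp (-2 : ℤ) * exp (-1 : ℤ) :=
              mul_le_mul_right q2 _
          _ = exp (-3 : ℤ) := by
              rw [← exp_add]
              rfl
      · rw [map_mul, map_pow]
        have h4 : W.valuation B 4 ≤ 1 := by exact_mod_cast V_int (V := W.valuation B) (4 : ℤ)
        calc W.valuation B 4 * W.valuation B a' ^ 3 ≤
              1 * exp (-1 : ℤ) ^ 3 := by
              exact mul_le_mul' h4 (pow_le_pow_left' q1 3)
          _ = exp (-3 : ℤ) := by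
              rw [one_mul, ← exp_nsmul]
              rfl
    apply not_le.2 g3
    have e1 : W.valuation B C = W.valuation B (s * C) := by rw [map_mul, vs, one_mul]
    rw [e1, ec, map_mul (W.valuation B), map_pow, Y1_pow hW3, ← exp_nsmul]
    calc exp (3 • (-(i : ℤ))) * W.valuation B (9 * b' + 4 * a' ^ 3) ≤
          exp (3 • (-(i : ℤ))) * exp (-3 : ℤ) := mul_le_mul_right q3 _
      _ = exp (-(3 * (i : ℤ) + 3)) := by
          rw [← exp_add]
          congr 1
          simp only [nsmul_eq_mul]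
          push_cast
          ring
  have hLoc2 : LocSol (1 : W.adicCompletion B)
      (algebraMap B (W.adicCompletion B) a')
      (9 * algebraMap B (W.adicCompletion B) b' + 4 * algebraMap B (W.adicCompletion B) a' ^ 3)
      (algebraMap B (W.adicCompletion B) d) := by
    refine locSol_t (t := algebraMap B (W.adicCompletion B) (3 ^ i)) ?_ ?_ ?_ H
    · rw [Ne, map_eq_zero]
      exact p3
    · rw [← map_mul, ea, map_mul]
    · rw [← map_mul, ec, map_mul, map_pow (algebraMap B (W.adicCompletion B)) (3 ^ i)]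
      congr 1
      simp only [map_add, map_mul, map_pow, map_ofNat]
  have hcls : Cls2 Valued.v (algebraMap B (W.adicCompletion B) a')
      (algebraMap B (W.adicCompletion B) b')
      (algebraMap B (W.adicCompletion B) d) := by
    by_cases ha : W.valuation B a' < 1
    · have hb : W.valuation B b' = 1 :=
        le_antisymm vb (not_lt.1 fun hb => vab ⟨ha, hb⟩)
      exact wb e3 (by rw [valued_algebraMap]; exact ha) (by rw [valued_algebraMap]; exact hb)
        hdw hLoc2
    · have ha1 : W.valuation B a' = 1 :=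
        le_antisymm va (not_lt.1 ha)
      exact wa e3 (by rw [valued_algebraMap]; exact ha1)
        (by rw [valued_algebraMap]; exact vb) hdw hLoc2
  have hga : g a' = a' := by
    rw [ha', map_div₀, map_mul, hg, hgA, map_pow, map_ofNat]
  have hgb : g b' = b' := by
    rw [hb', map_div₀, map_mul, hg, map_sub, map_mul, map_mul, map_mul, map_pow, map_pow, hgA, hgC,
      map_intCast, map_ofNat, map_ofNat, map_ofNat]
  exact vs2 hW3 hinv hodd hga hgb va vb hd (cls2_descend hW3 va vb hd hcls)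

end H11L
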