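import Pool.Agent.H11.T3L.La
import Pool.Agent.H11.T3L.Lb
import Pool.Agent.H11.T3L.Lc
import Pool.Agent.H11.T3L.Ld
import Pool.Agent.H11.T3L.Lf

/-!
ROW Lh (the local condition at a place above three, `D = 3 D₁`; about 150 lines).

PROOF. `w, e` from `val_up W`. `w 3 = exp (-1)` (`h3`), `w D₁ = 1` (an integer prime to three). `d = d₁ + d₂ s` is given. `HM` (for `v = w`): its hypothesis holds: `z² = D` in the completion is impossible since `Valued.v D = exp (-1)` is not a square (`D = 3 D₁`, `log`), so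
`LocM D (α/3) β d₁ d₂` over the completion. `a = α / 3^(i+1)`, `b = β / 3^(3 i + 1)` in `K` (images in `L` and in the completion), `t = 3^i`: `α / 3 = t a`, `β = t³ (3 b)`: `locM_scale` (the parameters are images under the algebra maps), `D = 3 D₁` as elements:
`LocM (3 δ) a (3 b) d₁ d₂`, `δ = D₁`. `clsM_of_locM` (`w a ≤ 1`, `w b ≤ 1`, `exp (-2) < w b` from `g1 g2 g3`; `valued_algebraMap`; not both `d_i = 0` as `d ≠ 0`), `clsM_descend`, `clsM_gal` with `W.valuation B`, `σ`, `g`: it gives `t` with `W (g d/d t³ - 1) ≤ (W s)³`.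
`(W s)² = W (3 D₁) = W 3`, so `((W s)³)² = (W 3)³ = W 27`. (`W 3 < 1`: `W 3 = (w 3)^e`, `e ≠ 0`.)
-/

set_option autoImplicit false
open scoped Classical

open IsDedekindDomain NumberField WithZero Pool.Agent.H10

namespace H11L

open H55T3

private theorem Lh_le {L : Type} [Field L] [NumberField L] (w : HeightOneSpectrum (𝓞 L)) (n : ℤ) :
    w.valuation L (n : L) ≤ 1 := by
  have h : w.valuation L (algebraMap (𝓞 L) L (n : 𝓞 L)) ≤ 1 :=
    w.valuation_le_one (K := L) (n : 𝓞 L)
  rwa [map_intCast (algebraMap (𝓞 L) L)] at h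

private theorem Lh_exp : exp (-1 : ℤ) < (1 : WithZero (Multiplicative ℤ)) := by
  rw [← exp_zero, exp_lt_exp]
  norm_num

private theorem Lh_int {L : Type} [Field L] [NumberField L] {w : HeightOneSpectrum (𝓞 L)}
    (h3 : w.valuation L 3 = exp (-1 : ℤ)) {D1 : ℤ} (hD1 : ¬ 3 ∣ D1) :
    w.valuation L (D1 : L) = 1 := by
  by_contra hne
  have hlt : w.valuation L (D1 : L) < 1 := lt_of_le_of_ne (Lh_le w D1) hne
  obtain ⟨u, v, huv⟩ := (Int.prime_three.coprime_iff_not_dvd).2 hD1
  have h1 : (u : L) * 3 + (v : L) * (D1 : L) = 1 := by exact_mod_cast huv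
  have h2 := (w.valuation L).map_add ((u : L) * 3) ((v : L) * (D1 : L))
  rw [h1, map_one, map_mul, map_mul, h3] at h2
  have h4 : w.valuation L (u : L) * exp (-1 : ℤ) < 1 :=
    (mul_le_of_le_one_left' (Lh_le w u)).trans_lt Lh_exp
  have h5 : w.valuation L (v : L) * w.valuation L (D1 : L) < 1 :=
    (mul_le_of_le_one_left' (Lh_le w v)).trans_lt hlt
  exact absurd h2 (not_le.2 (max_lt h4 h5))

theorem loc_ram {K L B : Type} [Field K] [NumberField K] [Field L] [NumberField L] [Field B] [NumberField B] [Algebra K L] [Algebra L B]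
    [Algebra K B] [IsScalarTower K L B] {D1 : ℤ} (hD1 : ¬ 3 ∣ D1) {s : B} (hs : s ^ 2 = ((3 * D1 : ℤ) : B)) {α β : K}
    (W : HeightOneSpectrum (𝓞 B)) (w : HeightOneSpectrum (𝓞 L)) {e : ℕ} (he : e ≠ 0)
    (hwW : ∀ x : L, w.valuation L x ^ e = W.valuation B (algebraMap L B x)) (h3 : w.valuation L 3 = exp (-1 : ℤ)) {i : ℕ}
    (g1 : w.valuation L (algebraMap K L α) ≤ exp (-(i + 1 : ℤ)))
    (g2 : w.valuation L (algebraMap K L β) ≤ exp (-(3 * i + 1 : ℤ)))
    (g3 : exp (-(3 * i + 3 : ℤ)) < w.valuation L (algebraMap K L β)) {d₁ d₂ : L} (hd : algebraMap L B d₁ + algebraMap L B d₂ * s ≠ 0)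
    (HM : (∀ z : w.adicCompletion L, z ^ 2 ≠ algebraMap L _ ((3 * D1 : ℤ) : L)) →
      LocM (algebraMap L (w.adicCompletion L) ((3 * D1 : ℤ) : L)) (algebraMap L (w.adicCompletion L) (algebraMap K L (α / 3)))
        (algebraMap L (w.adicCompletion L) (algebraMap K L β)) (algebraMap L (w.adicCompletion L) d₁)
        (algebraMap L (w.adicCompletion L) d₂))
    {σ : L ≃ₐ[K] L} {g : B ≃ₐ[K] B} (hgσ : ∀ z : L, g (algebraMap L B z) = algebraMap L B (σ z)) (hg : g s = s) (hodd : Odd (orderOf σ))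
    (hσ : ∀ x, w.valuation L (σ x) = w.valuation L x) (hinv : ∀ x, W.valuation B (g x) = W.valuation B x) :
    ∃ t : B, W.valuation B (g (algebraMap L B d₁ + algebraMap L B d₂ * s) / (algebraMap L B d₁ + algebraMap L B d₂ * s) * t ^ 3 - 1) ^ 2 ≤
      W.valuation B 27 := by
  have hD := Lh_int h3 hD1
  have hcast : ((3 * D1 : ℤ) : L) = 3 * (D1 : L) := by push_cast; rfl
  have h3D : w.valuation L ((3 * D1 : ℤ) : L) = exp (-1 : ℤ) := by
    rw [hcast, map_mul, h3, hD, mul_one]
  have h3K : (3 : K) ≠ 0 := by norm_num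
  have hns : ∀ z : w.adicCompletion L, z ^ 2 ≠ algebraMap L _ ((3 * D1 : ℤ) : L) := by
    intro z hz
    have h := congrArg Valued.v hz
    rw [map_pow, valued_algebraMap, h3D] at h
    have h0 : Valued.v z ≠ 0 := by
      intro h0
      rw [h0, zero_pow two_ne_zero] at h
      exact exp_ne_zero h.symm
    rw [← exp_log h0, ← exp_nsmul, exp_inj] at h
    simp only [nsmul_eq_mul, Nat.cast_ofNat] at h
    omega
  have hLoc := HM hns
  obtain ⟨a, ha⟩ : ∃ a : K, a = α / 3 ^ (i + 1) := ⟨_, rfl⟩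
  obtain ⟨b, hb⟩ : ∃ b : K, b = β / 3 ^ (3 * i + 1) := ⟨_, rfl⟩
  have ea : α / 3 = 3 ^ i * a := by
    rw [ha, pow_succ]
    field_simp
  have ec : β = (3 ^ i) ^ 3 * (3 * b) := by
    have p1 : (3 : K) ^ (3 * i + 1) = (3 ^ i) ^ 3 * 3 := by
      rw [pow_add, mul_comm 3 i, pow_mul]
      norm_num
    rw [hb, p1]
    have p3 : (3 : K) ^ i ≠ 0 := pow_ne_zero i h3K
    field_simp
  have va : w.valuation L (algebraMap K L a) ≤ 1 := by
    rw [ha, map_div₀, map_pow, map_ofNat, ← exp_zero, Y1_div h3]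
    exact g1.trans (le_of_eq (congrArg exp (by push_cast; ring)))
  have vb : w.valuation L (algebraMap K L b) ≤ 1 := by
    rw [hb, map_div₀, map_pow, map_ofNat, ← exp_zero, Y1_div h3]
    exact g2.trans (le_of_eq (congrArg exp (by push_cast; ring)))
  have vb2 : exp (-2 : ℤ) < w.valuation L (algebraMap K L b) := by
    by_contra hcon
    rw [not_lt, hb, map_div₀, map_pow, map_ofNat, Y1_div h3] at hcon
    apply not_le.2 g3
    exact hcon.trans (le_of_eq (congrArg exp (by push_cast; ring)))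
  have e3 : Valued.v (3 : w.adicCompletion L) = exp (-1 : ℤ) := by
    rw [valued_ofNat w 3]; exact h3
  have hLoc2 : LocM (3 * algebraMap L (w.adicCompletion L) (D1 : L))
      (algebraMap L (w.adicCompletion L) (algebraMap K L a))
      (3 * algebraMap L (w.adicCompletion L) (algebraMap K L b))
      (algebraMap L (w.adicCompletion L) d₁) (algebraMap L (w.adicCompletion L) d₂) := by
    have eD : (3 : w.adicCompletion L) * algebraMap L (w.adicCompletion L) (D1 : L) =
        algebraMap L (w.adicCompletion L) ((3 * D1 : ℤ) : L) := by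
      rw [hcast, map_mul, map_ofNat]
    rw [eD]
    refine locM_scale (t := algebraMap L (w.adicCompletion L) (algebraMap K L (3 ^ i))) ?_ ?_ ?_
      hLoc
    · rw [Ne, map_eq_zero, map_eq_zero]
      exact pow_ne_zero i h3K
    · rw [ea, map_mul (algebraMap K L), map_mul]
    · rw [ec, map_mul (algebraMap K L), map_mul, map_pow (algebraMap K L) (3 ^ i),
        map_pow (algebraMap L (w.adicCompletion L)) (algebraMap K L (3 ^ i))]
      congr 1
      simp only [map_mul, map_ofNat]
  have hd12 : algebraMap L (w.adicCompletion L) d₁ ≠ 0 ∨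
      algebraMap L (w.adicCompletion L) d₂ ≠ 0 := by
    by_contra hcon
    rw [not_or, not_not, not_not, map_eq_zero, map_eq_zero] at hcon
    apply hd
    rw [hcon.1, hcon.2, map_zero, zero_mul, add_zero]
  have hcls := clsM_of_locM (V := Valued.v) e3 (by rw [valued_algebraMap]; exact hD)
    (by rw [valued_algebraMap]; exact va) (by rw [valued_algebraMap]; exact vb)
    (by rw [valued_algebraMap]; exact vb2) hd12 hLoc2
  have hcls2 : ClsM (w.valuation L) (D1 : L) (algebraMap K L a) (algebraMap K L b) d₁ d₂ :=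
    clsM_descend h3 hD.le va hcls
  have hW3e : W.valuation B 3 = exp (-1 : ℤ) ^ e := by
    rw [← h3, hwW, map_ofNat (algebraMap L B)]
  have hW3 : W.valuation B 3 < 1 := by
    rw [hW3e]
    exact pow_lt_one₀ zero_le Lh_exp he
  have hWD : W.valuation B (D1 : B) = 1 := by
    have h := hwW (D1 : L)
    rw [hD, one_pow, map_intCast] at h
    exact h.symm
  have hvW : ∀ z : L, w.valuation L z ≤ 1 → W.valuation B (algebraMap L B z) ≤ 1 := by
    intro z hz
    rw [← hwW]
    exact pow_le_one₀ zero_le hz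
  have hs' : s ^ 2 = algebraMap L B (3 * (D1 : L)) := by
    rw [hs, ← hcast, map_intCast]
  obtain ⟨t, ht⟩ := clsM_gal (v := w.valuation L) (W := W.valuation B) h3 hW3 hvW hgσ hσ hinv hodd
    hD (map_intCast σ D1) (σ.commutes a) (σ.commutes b) va vb hs' hg hcls2
  refine ⟨t, (pow_le_pow_left' ht 2).trans (le_of_eq ?_)⟩
  have hWs : W.valuation B s ^ 2 = W.valuation B 3 := by
    rw [← map_pow, hs]
    push_cast
    rw [map_mul, hWD, mul_one]
  have e27 : (27 : B) = 3 ^ 3 := by norm_num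
  rw [e27, map_pow, ← hWs, ← pow_mul, ← pow_mul]

end H11L
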