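import Pool.Agent.H11.T3L.Le
import Pool.Agent.H11.T3L.Lf
import Pool.Agent.H11.T3L.Lg
import Pool.Agent.H11.T3L.Lh

/-!
ROW Li (the real side: assembly; about 190 lines).

PROOF. Model: `k5_arith3` (Pool/Agent/H55/T3/Y1.lean). `x = g d / d`. Apply `R` to `x`; it gives `x = y³`.
(1) `τ : B ≃ₐ[L] B`, `τ s = - s`: `x τ x` is a cube: restricted to `K`, `τ' = g⁻¹ τ g` is an automorphism of `B` over `K` mapping `L` to itself pointwise (`L/K` is normal: `g` maps the image of `L` to itself: `g.restrictNormal L`, `restrictNormal_commutes`), i.e. an element of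
    `Gal(B/L)` with `τ' s = - s` (`g s = s`). `τ (g d) = g (τ' d)`, so `g d * τ (g d) = g (d * τ' d) = g (y'³)` by `hJ`, and `d * τ d` is a cube by `hJ`; quotient.
(2) `3 ∣ log W(x)` for all `W`: if `6 D β γ ∈ W` (`γ = 27 β - 4 D α³`, image of the element of `𝓞 K`; `D` an integer): `W (g y) = W y` (`val_inv_odd` and `hbad` for `W ∩ 𝓞 K`), so `W x = 1`. Otherwise `W s = 1` (`(W s)² = W D = 1`), and `vg` (Vg.lean) for `H W`
    with `V s = 1`, `V (6 (α/3)) = V (2 α) ≤ 1`, `V (2 β) = 1` gives `3 ∣ log (W d)`; the same for the conjugate place (`exists_conj g W`; `D` is a rational integer, `β` in `K`), as in Y1; `H` is a statement for all places.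
(3) `W ∋ 3`: `W (g y) = W y` as in (2) (`6 ∈ W`). `w, e` from `val_up W`; `w 3 = exp (-1)` (`hunr w`).
    `3 ∤ D`: `val_three_B`: `W 3 = exp (-1)`, so `e = 1` (`(w 3)^e = W 3`) and `W = w` on `L`; `hgood w` (first alternative; the second says `3 ∣ D`), `loc_unr` (through `algebraMap K B = algebraMap L B ∘ algebraMap K L`): `W (..) ≤ W 9`, so `W (..)² ≤ W 81 ≤ W 27`.
    `3 ∣ D`, `D = 3 D₁`, `3 ∤ D₁` (`hD9`): `hgood w` (second alternative), `d = d₁ + d₂ s` (`1, s` is a basis of `B/L`: `h2`, `s ∉ L` because `hgen`.. : if `s ∈ L` then `hgen` says `Gal(B/L) = 1`, but its order is two), `HM d₁ d₂ _ w`, `σ = g.restrictNormal L` (odd order: `σ^k = 1`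
    if `g^k = 1`: `AlgEquiv.restrictNormalHom` is a homomorphism, `orderOf_map_dvd`), `w (σ y) = w y` (`val_conj_of_unique σ w`, `hbad`), `loc_ram`.
(4) norm: `hA g hg`: `g` is an automorphism over `A`, `N_{B/A} (g d) = N_{B/A} d` (`Algebra.norm_eq_of_algEquiv` for the `A`-algebra automorphism with the same underlying map), so `N x = 1 = 1³`.
-/

set_option autoImplicit false
open scoped Classical

open IsDedekindDomain NumberField WithZero Pool.Agent.H10

namespace H11L

open H55T3

private theorem Li_sq {F : Type*} [Field F] {V : Valuation F (WithZero (Multiplicative ℤ))} {t : F}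
    (h : V t ^ 2 = 1) : V t = 1 := by
  rcases lt_trichotomy (V t) 1 with h1 | h1 | h1
  · have h2 := pow_lt_one₀ zero_le h1 (n := 2) (by norm_num)
    rw [h] at h2
    exact absurd h2 (lt_irrefl _)
  · exact h1
  · have h2 := one_lt_pow₀ h1 (n := 2) (by norm_num)
    rw [h] at h2
    exact absurd h2 (lt_irrefl _)

/-- `B = L + L s` -/
private theorem Li_dec {L B : Type} [Field L] [NumberField L] [Field B] [NumberField B]
    [Algebra L B] [IsGalois L B] {D : ℤ} (hD9 : ¬ 9 ∣ D) {s : B} (hs : s ^ 2 = (D : B))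
    (h2 : Module.finrank L B = 2) (hgen : ∀ g : B ≃ₐ[L] B, g s = s → g = 1) (d : B) :
    ∃ d₁ d₂ : L, d = algebraMap L B d₁ + algebraMap L B d₂ * s := by
  have hfd : FiniteDimensional L B := Module.Finite.of_restrictScalars_finite ℚ L B
  have hcard : Nat.card (B ≃ₐ[L] B) = 2 := by rw [IsGalois.card_aut_eq_finrank, h2]
  have hpm : ∀ h : B ≃ₐ[L] B, h s = s ∨ h s = -s := by
    intro h
    have h1 : (h s) ^ 2 = s ^ 2 := by
      rw [← map_pow, hs, map_intCast]
    exact sq_eq_sq_iff_eq_or_eq_neg.1 h1
  have hs0 : s ≠ 0 := by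
    rintro rfl
    rw [zero_pow two_ne_zero] at hs
    have h0 : D = 0 := by exact_mod_cast hs.symm
    exact hD9 (by rw [h0]; exact dvd_zero _)
  obtain ⟨τ, hτ⟩ : ∃ τ : B ≃ₐ[L] B, τ ≠ 1 := by
    by_contra hne
    push Not at hne
    have : Subsingleton (B ≃ₐ[L] B) := ⟨fun a b => by rw [hne a, hne b]⟩
    have h3 : Nat.card (B ≃ₐ[L] B) = 1 := Nat.card_of_subsingleton 1
    omega
  have hτs : τ s = -s := (hpm τ).resolve_left fun h => hτ (hgen τ h)
  have hττ : ∀ x, τ (τ x) = x := by
    intro x
    have h3 : τ * τ = 1 := by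
      apply hgen
      rw [AlgEquiv.mul_apply, hτs, map_neg, hτs, neg_neg]
    have h4 := congrArg (fun f : B ≃ₐ[L] B => f x) h3
    exact h4
  have hall : ∀ h : B ≃ₐ[L] B, h = 1 ∨ h = τ := by
    intro h
    rcases hpm h with h3 | h3
    · exact Or.inl (hgen h h3)
    · right
      have h4 : h * τ = 1 := by
        apply hgen
        rw [AlgEquiv.mul_apply, hτs, map_neg, h3, neg_neg]
      ext x
      have h5 := congrArg (fun f : B ≃ₐ[L] B => f (τ x)) h4
      change h (τ (τ x)) = τ x at h5
      rwa [hττ] at h5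
  have hfix : ∀ x : B, τ x = x → ∃ y : L, algebraMap L B y = x := by
    intro x hx
    apply (IsGalois.mem_range_algebraMap_iff_fixed x).2
    intro h
    rcases hall h with rfl | rfl
    · rfl
    · exact hx
  obtain ⟨d₁, h₁⟩ := hfix ((d + τ d) / 2) (by
    rw [map_div₀, map_add, hττ, map_ofNat, add_comm])
  obtain ⟨d₂, h₂⟩ := hfix ((d - τ d) / (2 * s)) (by
    rw [map_div₀, map_sub, hττ, map_mul, map_ofNat, hτs]
    field_simp
    ring)
  refine ⟨d₁, d₂, ?_⟩
  rw [h₁, h₂]
  field_simp
  ring

theorem arithD {K L A B : Type} [Field K] [NumberField K] [Field L] [NumberField L] [Field A]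
    [NumberField A] [Field B] [NumberField B] [Algebra K L] [Algebra L B] [Algebra K B]
    [IsScalarTower K L B] [Algebra K A] [Algebra A B] [IsScalarTower K A B] [IsGalois K L]
    [IsGalois K B] [IsGalois L B] {D : ℤ} (hD9 : ¬ 9 ∣ D) {s : B} (hs : s ^ 2 = (D : B))
    (h2 : Module.finrank L B = 2) (hgen : ∀ g : B ≃ₐ[L] B, g s = s → g = 1)
    (hA : ∀ g : B ≃ₐ[K] B, g s = s → ∀ x : A, g (algebraMap A B x) = algebraMap A B x)
    (R : NoNewCubeM L A B s) {α β : 𝓞 K}
    (hgood : ∀ w : HeightOneSpectrum (𝓞 L), (3 : 𝓞 L) ∈ w.asIdeal →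
      GoodVD (w.valuation L) D (algebraMap K L (α : K)) (algebraMap K L (β : K)))
    (hbad : ∀ v : HeightOneSpectrum (𝓞 K), 6 * (D : 𝓞 K) * β * (27 * β - 4 * D * α ^ 3) ∈ v.asIdeal →
      UniqueOver K L v.asIdeal)
    (hunr : ∀ w : HeightOneSpectrum (𝓞 L), (3 : 𝓞 L) ∈ w.asIdeal →
      w.valuation L 3 = exp (-1 : ℤ))
    {d : B} (hd : d ≠ 0)
    (H : FinSol3 B s (algebraMap K B ((α : K) / 3)) (algebraMap K B (β : K)) d)
    (HM : FinM s (D : L) (algebraMap K L ((α : K) / 3)) (algebraMap K L (β : K)) d)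
    (hJ : ∀ g : B ≃ₐ[L] B, g s = -s → ∃ y, g d * d = y ^ 3)
    {g : B ≃ₐ[K] B} (hg : g s = s) (hodd : Odd (orderOf g)) : ∃ y, g d = d * y ^ 3 := by
  obtain ⟨γ, hγ⟩ : ∃ γ : 𝓞 K, γ = 27 * β - 4 * D * α ^ 3 := ⟨_, rfl⟩
  rw [← hγ] at hbad
  have hιint : ∀ z : 𝓞 K, algebraMap K B (z : K) =
      algebraMap (𝓞 B) B (algebraMap (𝓞 K) (𝓞 B) z) := by
    intro z
    rw [← IsScalarTower.algebraMap_apply (𝓞 K) (𝓞 B) B, ← IsScalarTower.algebraMap_apply (𝓞 K) K B]
  have below : ∀ W : HeightOneSpectrum (𝓞 B), W.asIdeal.under (𝓞 K) ≠ ⊥ := fun W =>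
    Ideal.IsIntegral.comap_ne_bot _ W.ne_bot
  have belowL : ∀ w : HeightOneSpectrum (𝓞 L), w.asIdeal.under (𝓞 K) ≠ ⊥ := fun w =>
    Ideal.IsIntegral.comap_ne_bot _ w.ne_bot
  have hinv : ∀ W : HeightOneSpectrum (𝓞 B),
      algebraMap (𝓞 K) (𝓞 B) (6 * (D : 𝓞 K) * β * γ) ∈ W.asIdeal →
      ∀ x, W.valuation B (g x) = W.valuation B x := by
    intro W hW
    exact val_inv_odd (L := L) h2 W
      (hbad ⟨W.asIdeal.under (𝓞 K), inferInstance, below W⟩ hW) g hodd
  have hgd : g d ≠ 0 := by
    intro h
    apply hd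
    rw [← g.symm_apply_apply d, h, map_zero]
  have hx0 : g d / d ≠ 0 := div_ne_zero hgd hd
  have h3K : (3 : K) ≠ 0 := by norm_num
  have hgsymm : g.symm s = s := by
    rw [AlgEquiv.symm_apply_eq, hg]
  have hsc : ∀ z : K, algebraMap L B (algebraMap K L z) = algebraMap K B z := fun z =>
    (IsScalarTower.algebraMap_apply K L B z).symm
  -- the restriction of `g` to `L`
  obtain ⟨σ, hσdef⟩ : ∃ σ : L ≃ₐ[K] L, σ = AlgEquiv.restrictNormal g L := ⟨_, rfl⟩
  have hgσ : ∀ z : L, g (algebraMap L B z) = algebraMap L B (σ z) := fun z => by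
    rw [hσdef]
    exact (AlgEquiv.restrictNormal_commutes g L z).symm
  obtain ⟨y, hy⟩ : ∃ y : B, g d / d = y ^ 3 := by
    refine R (g d / d) hx0 ?_ ?_ ?_ ?_
    · -- the twisted condition
      intro τ hτ
      let τ' : B ≃ₐ[L] B :=
        { g.trans ((τ.restrictScalars K).trans g.symm) with
          commutes' := by
            intro z
            change g.symm (τ (g (algebraMap L B z))) = algebraMap L B z
            rw [hgσ, τ.commutes, ← hgσ]
            exact g.symm_apply_apply _ }
      have hτ' : ∀ x, g (τ' x) = τ (g x) := fun x => g.apply_symm_apply _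
      have hτs : τ' s = -s := by
        apply g.injective
        rw [hτ', hg, hτ, map_neg, hg]
      obtain ⟨y₁, h₁⟩ := hJ τ hτ
      obtain ⟨y₂, h₂⟩ := hJ τ' hτs
      have h₃ := congrArg g h₂
      rw [map_mul, hτ', map_pow] at h₃
      refine ⟨g y₂ / y₁, ?_⟩
      rw [div_pow, ← h₃, ← h₁, map_div₀]
      have hτd : τ d ≠ 0 := by
        intro h
        apply hd
        rw [← τ.symm_apply_apply d, h, map_zero]
      field_simp
    · -- the valuations
      intro W
      by_cases hw : algebraMap (𝓞 K) (𝓞 B) (6 * (D : 𝓞 K) * β * γ) ∈ W.asIdeal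
      · rw [map_div₀, hinv W hw d, div_self ((Valuation.ne_zero_iff _).mpr hd), log_one]
        exact dvd_zero _
      · have hg' : ∀ w' : HeightOneSpectrum (𝓞 B),
            algebraMap (𝓞 K) (𝓞 B) (2 * D * β) ∉ w'.asIdeal →
            (3 : ℤ) ∣ log (w'.valuation B d) := by
          intro w' h2'
          have hDn : algebraMap (𝓞 K) (𝓞 B) (D : 𝓞 K) ∉ w'.asIdeal := by
            intro h
            apply h2'
            have e : (2 * D * β : 𝓞 K) = (2 * β) * D := by ring
            rw [e, map_mul]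
            exact Ideal.mul_mem_left _ _ h
          have h2n : algebraMap (𝓞 K) (𝓞 B) (2 * β) ∉ w'.asIdeal := by
            intro h
            apply h2'
            have e : (2 * D * β : 𝓞 K) = D * (2 * β) := by ring
            rw [e, map_mul]
            exact Ideal.mul_mem_left _ _ h
          rw [← valued_algebraMap w' d]
          refine vg (V := Valued.v) ?_ ?_ ?_ ?_ (H w')
          · rw [valued_algebraMap]
            apply Li_sq
            rw [← map_pow, hs]
            have e := (w'.valuation_eq_one_iff_notMem (K := B)).2 hDn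
            rw [map_intCast (algebraMap (𝓞 K) (𝓞 B)), map_intCast (algebraMap (𝓞 B) B)] at e
            exact e
          · have e0 : (6 : K) * ((α : K) / 3) = 2 * (α : K) := by
              have h6 : (6 : K) = 2 * 3 := by norm_num
              rw [h6, mul_assoc, mul_div_cancel₀ _ h3K]
            have e : (6 : w'.adicCompletion B) * algebraMap B (w'.adicCompletion B)
                (algebraMap K B ((α : K) / 3)) =
                algebraMap B (w'.adicCompletion B) (algebraMap (𝓞 B) B
                  (algebraMap (𝓞 K) (𝓞 B) (2 * α))) := by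
              have e1 : (6 : w'.adicCompletion B) * algebraMap B (w'.adicCompletion B)
                (algebraMap K B ((α : K) / 3)) = algebraMap B (w'.adicCompletion B)
                (algebraMap K B (6 * ((α : K) / 3))) := by
                rw [map_mul (algebraMap K B), map_mul (algebraMap B (w'.adicCompletion B)),
                  map_ofNat, map_ofNat]
              rw [e1, e0, ← hιint]
              simp only [map_mul, map_ofNat]
            rw [e, valued_algebraMap]
            exact w'.valuation_le_one _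
          · have e : (2 : w'.adicCompletion B) * algebraMap B (w'.adicCompletion B)
                (algebraMap K B (β : K)) =
                algebraMap B (w'.adicCompletion B) (algebraMap (𝓞 B) B
                  (algebraMap (𝓞 K) (𝓞 B) (2 * β))) := by
              rw [← hιint]
              simp only [map_mul, map_ofNat]
            rw [e, valued_algebraMap]
            exact (w'.valuation_eq_one_iff_notMem (K := B)).2 h2n
          · exact (map_ne_zero_iff _ (algebraMap B (w'.adicCompletion B)).injective).2 hd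
        have h2w : algebraMap (𝓞 K) (𝓞 B) (2 * D * β) ∉ W.asIdeal := by
          intro h
          apply hw
          have e : (6 * D * β * γ : 𝓞 K) = (3 * γ) * (2 * D * β) := by ring
          rw [e, map_mul]
          exact Ideal.mul_mem_left _ _ h
        obtain ⟨w', h1, h2'⟩ := exists_conj g W
        have h2w' : algebraMap (𝓞 K) (𝓞 B) (2 * D * β) ∉ w'.asIdeal :=
          fun h => h2w ((h2' _).1 h)
        rw [map_div₀, h1, log_div ((Valuation.ne_zero_iff _).mpr hd)
          ((Valuation.ne_zero_iff _).mpr hd)]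
        exact dvd_sub (hg' w' h2w') (hg' W h2w)
    · -- the places above three
      intro W hW
      have hw6 : algebraMap (𝓞 K) (𝓞 B) (6 * (D : 𝓞 K) * β * γ) ∈ W.asIdeal := by
        have e : algebraMap (𝓞 K) (𝓞 B) (6 * (D : 𝓞 K) * β * γ) =
            algebraMap (𝓞 K) (𝓞 B) (2 * D * β * γ) * 3 := by
          have e2 : (6 * (D : 𝓞 K) * β * γ) = (2 * D * β * γ) * 3 := by ring
          rw [e2, map_mul, map_ofNat]
        rw [e]
        exact Ideal.mul_mem_left _ _ hW
      have hinvW := hinv W hw6
      obtain ⟨w, e, hw, he, hwW⟩ := val_up (L := L) W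
      have h3w : (3 : 𝓞 L) ∈ w.asIdeal := by
        rw [hw]
        change algebraMap (𝓞 L) (𝓞 B) 3 ∈ W.asIdeal
        rwa [map_ofNat]
      have h3v := hunr w h3w
      rcases hgood w h3w with ⟨h3D, i, g1, g2, g3⟩ | ⟨h3D, -, i, g1, g2, g3⟩
      · have hW3 := val_three_B h3D hs hgen hunr W hW
        have he1 : e = 1 := by
          have h5 := hwW 3
          rw [h3v, map_ofNat, hW3, ← exp_nsmul, exp_inj] at h5
          simp only [nsmul_eq_mul] at h5
          omega
        have hwW' : ∀ z : K, W.valuation B (algebraMap K B z) =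
            w.valuation L (algebraMap K L z) := by
          intro z
          rw [← hsc, ← hwW, he1, pow_one]
        obtain ⟨t, ht⟩ := loc_unr h3D hs (α := (α : K)) (β := (β : K)) W hW3 (i := i)
          (by rw [hwW']; exact g1)
          (by
            rw [hwW']
            have e1 : algebraMap K L (27 * (β : K) - 4 * (D : K) * (α : K) ^ 3) =
                27 * algebraMap K L (β : K) - 4 * (D : L) * algebraMap K L (α : K) ^ 3 := by
              simp only [map_sub, map_mul, map_pow, map_ofNat, map_intCast]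
            rw [e1]
            exact g2)
          (by rw [hwW']; exact g3) hd (H W) hg hodd hinvW
        refine ⟨t, ?_⟩
        have h9 : W.valuation B 9 = exp (-2 : ℤ) := by
          have e : (9 : B) = 3 * 3 := by norm_num
          rw [e, map_mul, hW3, ← exp_add]
          rfl
        have h27 : W.valuation B 27 = exp (-3 : ℤ) := by
          have e : (27 : B) = 3 * 9 := by norm_num
          rw [e, map_mul, hW3, h9, ← exp_add]
          rfl
        calc W.valuation B (g d / d * t ^ 3 - 1) ^ 2 ≤ W.valuation B 9 ^ 2 := pow_le_pow_left' ht 2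
          _ ≤ W.valuation B 27 := by
            rw [h9, h27, ← exp_nsmul, exp_le_exp]
            simp
      · obtain ⟨D1, rfl⟩ := h3D
        have hD1 : ¬ 3 ∣ D1 := by
          rintro ⟨k, rfl⟩
          apply hD9
          exact ⟨k, by ring⟩
        obtain ⟨d₁, d₂, hdd⟩ := Li_dec hD9 hs h2 hgen d
        have hoddσ : Odd (orderOf σ) := by
          refine Odd.of_dvd_nat hodd ?_
          rw [hσdef]
          exact orderOf_map_dvd (AlgEquiv.restrictNormalHom L) g
        have hmemw : algebraMap (𝓞 K) (𝓞 L) (6 * ((3 * D1 : ℤ) : 𝓞 K) * β * γ) ∈ w.asIdeal := by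
          rw [hw]
          change algebraMap (𝓞 L) (𝓞 B) (algebraMap (𝓞 K) (𝓞 L) _) ∈ W.asIdeal
          rw [← IsScalarTower.algebraMap_apply (𝓞 K) (𝓞 L) (𝓞 B)]
          exact hw6
        have hσw : ∀ x, w.valuation L (σ x) = w.valuation L x :=
          val_conj_of_unique σ w
            (hbad ⟨w.asIdeal.under (𝓞 K), inferInstance, belowL w⟩ hmemw)
        rw [hdd]
        exact loc_ram hD1 hs (α := (α : K)) (β := (β : K)) W w he hwW h3v (i := i) g1 g2 g3
          (by rw [← hdd]; exact hd) (HM d₁ d₂ hdd w) hgσ hg hoddσ hσw hinvW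
    · -- the norm
      refine ⟨1, ?_⟩
      let gA : B ≃ₐ[A] B := { g with commutes' := hA g hg }
      have hgA : gA d = g d := rfl
      have h1 : Algebra.norm A (g d / d) * Algebra.norm A d = Algebra.norm A d := by
        rw [← map_mul, div_mul_cancel₀ _ hd, ← hgA, Algebra.norm_eq_of_algEquiv]
      have hfdA : FiniteDimensional A B := Module.Finite.of_restrictScalars_finite ℚ A B
      have h2' : Algebra.norm A d ≠ 0 := Algebra.norm_ne_zero_iff.mpr hd
      rw [one_pow]
      exact mul_right_cancel₀ h2' (by rw [h1, one_mul])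
  refine ⟨y, ?_⟩
  rw [← hy, mul_div_cancel₀ _ hd]

end H11L
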