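import Pool.Agent.H55.T3.Df6
import Pool.Agent.H11.T3L.Le
import Pool.Agent.H11.T3L.Lf
import Pool.Agent.H11.T3L.Lg
import Pool.Agent.H11.T3L.Lh

/-!
The real side for a curve with a rational subgroup of order three, `D` an algebraic integer of the base field
(helper11; the same proof as Lf, Lg, Lh, Li with `D` in `𝓞 K`; no row).
-/

set_option autoImplicit false
open scoped Classical

open IsDedekindDomain NumberField WithZero Pool.Agent.H10

namespace H11L

open H55T3

theorem Lo_sq {F : Type*} [Field F] {V : Valuation F (WithZero (Multiplicative ℤ))} {t : F}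
    (h : V t ^ 2 = 1) : V t = 1 := by
  rcases lt_trichotomy (V t) 1 with h1 | h1 | h1
  · have h2 := pow_lt_one₀ zero_le h1 (n := 2) (by norm_num)
    rw [h] at h2
    exact absurd h2 (lt_irrefl _)
  · exact h1
  · have h2 := one_lt_pow₀ h1 (n := 2) (by norm_num)
    rw [h] at h2
    exact absurd h2 (lt_irrefl _)

theorem val_three_O {K L B : Type} [Field K] [NumberField K] [Field L] [NumberField L] [Field B]
    [NumberField B] [Algebra K L] [Algebra L B] [Algebra K B] [IsScalarTower K L B] [IsGalois L B]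
    {D : 𝓞 K} {s : B} (hs : s ^ 2 = algebraMap K B (D : K)) (hgen : ∀ g : B ≃ₐ[L] B, g s = s → g = 1)
    (hunr : ∀ w : HeightOneSpectrum (𝓞 L), (3 : 𝓞 L) ∈ w.asIdeal → w.valuation L 3 = exp (-1 : ℤ))
    (W : HeightOneSpectrum (𝓞 B)) (hD : algebraMap (𝓞 K) (𝓞 B) D ∉ W.asIdeal)
    (hW : (3 : 𝓞 B) ∈ W.asIdeal) : W.valuation B 3 = exp (-1 : ℤ) := by
  obtain ⟨w, hw, hl, he⟩ := Lf_under (L := L) W
  have h3w : (3 : 𝓞 L) ∈ w.asIdeal := by
    rw [hw]
    change algebraMap (𝓞 L) (𝓞 B) 3 ∈ W.asIdeal
    rwa [map_ofNat]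
  have hιint : algebraMap K B (D : K) = algebraMap (𝓞 B) B (algebraMap (𝓞 K) (𝓞 B) D) := by
    rw [← IsScalarTower.algebraMap_apply (𝓞 K) (𝓞 B) B, ← IsScalarTower.algebraMap_apply (𝓞 K) K B]
  have hint : IsIntegral ℤ s := by
    refine IsIntegral.of_pow (n := 2) (by norm_num) ?_
    rw [hs, hιint]
    exact RingOfIntegers.isIntegral_coe _
  obtain ⟨s', hs'⟩ : ∃ s' : 𝓞 B, algebraMap (𝓞 B) B s' = s := ⟨⟨s, hint⟩, rfl⟩
  have hs2 : s' * s' = algebraMap (𝓞 K) (𝓞 B) D := by
    apply RingOfIntegers.coe_injective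
    rw [map_mul, hs', ← sq, hs, hιint]
  have hbot : W.asIdeal.inertia (B ≃ₐ[L] B) = ⊥ := by
    rw [eq_bot_iff]
    intro g hg
    rw [Subgroup.mem_bot]
    apply hgen
    have h1 : (g s) ^ 2 = s ^ 2 := by
      rw [← map_pow, hs, IsScalarTower.algebraMap_apply K L B, g.commutes]
    rcases sq_eq_sq_iff_eq_or_eq_neg.1 h1 with h2 | h2
    · exact h2
    · exfalso
      have h3 : g • s' - s' ∈ W.asIdeal := hg s'
      have h4 : g • s' = -s' := by
        apply RingOfIntegers.coe_injective
        change g (algebraMap (𝓞 B) B s') = algebraMap (𝓞 B) B (-s')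
        rw [map_neg, hs', h2]
      have h5 : 4 * algebraMap (𝓞 K) (𝓞 B) D ∈ W.asIdeal := by
        have h6 := W.asIdeal.mul_mem_left (g • s' - s') h3
        have h7 : (g • s' - s') * (g • s' - s') = 4 * algebraMap (𝓞 K) (𝓞 B) D := by
          rw [h4, ← hs2]
          ring
        rwa [h7] at h6
      have h8 : algebraMap (𝓞 K) (𝓞 B) D ∈ W.asIdeal := by
        have h10 : algebraMap (𝓞 K) (𝓞 B) D =
            4 * algebraMap (𝓞 K) (𝓞 B) D - algebraMap (𝓞 K) (𝓞 B) D * 3 := by ring
        rw [h10]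
        exact W.asIdeal.sub_mem h5 (W.asIdeal.mul_mem_left _ hW)
      exact hD h8
  have hcard := Lf_card w W
  rw [hbot, Subgroup.card_bot] at hcard
  have hv := HeightOneSpectrum.valuation_liesOver B w W (3 : L)
  rw [← hcard, pow_one, hunr w h3w, map_ofNat] at hv
  exact hv.symm

theorem loc_unrO {K B : Type} [Field K] [NumberField K] [Field B] [NumberField B] [Algebra K B] {D : K} {s : B}
    (hs : s ^ 2 = algebraMap K B D) {α β : K} (W : HeightOneSpectrum (𝓞 B)) (hD : W.valuation B (algebraMap K B D) = 1)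
    (hW3 : W.valuation B 3 = exp (-1 : ℤ)) {i : ℕ}
    (g1 : W.valuation B (algebraMap K B α) ≤ exp (-(i + 1 : ℤ)))
    (g2 : W.valuation B (algebraMap K B (27 * β - 4 * D * α ^ 3)) ≤ exp (-(3 * i + 5 : ℤ)))
    (g3 : exp (-(3 * i + 3 : ℤ)) < W.valuation B (algebraMap K B β)) {d : B} (hd : d ≠ 0)
    (H : LocSol (algebraMap B (W.adicCompletion B) s) (algebraMap B (W.adicCompletion B) (algebraMap K B (α / 3)))
      (algebraMap B (W.adicCompletion B) (algebraMap K B β)) (algebraMap B (W.adicCompletion B) d)) {g : B ≃ₐ[K] B}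
    (hg : g s = s) (hodd : Odd (orderOf g)) (hinv : ∀ x, W.valuation B (g x) = W.valuation B x) :
    ∃ t : B, W.valuation B (g d / d * t ^ 3 - 1) ≤ W.valuation B 9 := by
  have h9 : W.valuation B 9 = exp (-2 : ℤ) := by
    have e : (9 : B) = 3 * 3 := by norm_num
    rw [e, map_mul, hW3, ← exp_add]
    rfl
  rw [h9]
  have h3B : (3 : B) ≠ 0 := by norm_num
  have e3 : Valued.v (3 : W.adicCompletion B) = exp (-1 : ℤ) := by
    rw [valued_ofNat W 3]; exact hW3
  have hdw : algebraMap B (W.adicCompletion B) d ≠ 0 := by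
    rw [Ne, map_eq_zero]
    exact hd
  obtain ⟨A, hA⟩ : ∃ A, A = algebraMap K B α := ⟨_, rfl⟩
  obtain ⟨C, hC⟩ : ∃ C, C = algebraMap K B β := ⟨_, rfl⟩
  obtain ⟨E, hE⟩ : ∃ E, E = algebraMap K B D := ⟨_, rfl⟩
  have hgE : g E = E := by rw [hE]; exact g.commutes _
  rw [← hE] at hs hD
  have eG : algebraMap K B (27 * β - 4 * D * α ^ 3) = 27 * C - 4 * E * A ^ 3 := by
    rw [hA, hC, hE]
    simp only [map_sub, map_mul, map_pow, map_ofNat]
  have eA3 : algebraMap K B (α / 3) = A / 3 := by rw [map_div₀, map_ofNat, hA]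
  have hgA : g A = A := by rw [hA]; exact g.commutes _
  have hgC : g C = C := by rw [hC]; exact g.commutes _
  rw [eG] at g2
  rw [eA3, ← hC] at H
  rw [← hA] at g1
  rw [← hC] at g3
  have vs : W.valuation B s = 1 := by
    apply Lo_sq
    rw [← map_pow, hs, hD]
  obtain ⟨a', ha'⟩ : ∃ a' : B, a' = s * A / 3 ^ (i + 1) := ⟨_, rfl⟩
  obtain ⟨b', hb'⟩ : ∃ b' : B, b' = s * (27 * C - 4 * E * A ^ 3) / 3 ^ (3 * i + 5) :=
    ⟨_, rfl⟩
  have p3 : (3 : B) ^ i ≠ 0 := pow_ne_zero i h3B
  have ea : s * (A / 3) = 3 ^ i * a' := by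
    rw [ha', pow_succ]
    field_simp
  have ec : s * C = (3 ^ i) ^ 3 * (9 * b' + 4 * a' ^ 3) := by
    have p1 : (3 : B) ^ (3 * i + 5) = (3 ^ i) ^ 3 * 243 := by
      rw [pow_add, mul_comm 3 i, pow_mul]
      norm_num
    have p2 : (3 : B) ^ (i + 1) = 3 ^ i * 3 := pow_succ _ _
    have e1 : (3 ^ i) ^ 3 * (9 * b' + 4 * a' ^ 3) =
        s * (27 * C - 4 * E * A ^ 3) / 27 + 4 * (s * s ^ 2) * A ^ 3 / 27 := by
      rw [hb', ha', p1, p2]
      field_simp
      ring
    rw [e1, hs]
    field_simp
    ring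
  have va : W.valuation B a' ≤ 1 := by
    rw [ha', ← exp_zero, Y1_div hW3, map_mul, vs, one_mul]
    exact g1.trans (le_of_eq (congrArg exp (by push_cast; ring)))
  have vb : W.valuation B b' ≤ 1 := by
    rw [hb', ← exp_zero, Y1_div hW3, map_mul, vs, one_mul]
    exact g2.trans (le_of_eq (congrArg exp (by push_cast; ring)))
  have vab : ¬ (W.valuation B a' < 1 ∧ W.valuation B b' < 1) := by
    rintro ⟨h1, h2⟩
    have q1 : W.valuation B a' ≤ exp (-1 : ℤ) := le_exp_neg_one h1
    have q2 : W.valuation B b' ≤ exp (-1 : ℤ) := le_exp_neg_one h2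
    have q3 : W.valuation B (9 * b' + 4 * a' ^ 3) ≤ exp (-3 : ℤ) := by
      refine (Valuation.map_add _ _ _).trans (max_le ?_ ?_)
      · rw [map_mul, h9]
        calc exp (-2 : ℤ) * W.valuation B b' ≤ exp (-2 : ℤ) * exp (-1 : ℤ) :=
              mul_le_mul_right q2 _
          _ = exp (-3 : ℤ) := by
              rw [← exp_add]
              rfl
      · rw [map_mul, map_pow]
        have h4 : W.valuation B 4 ≤ 1 := by exact_mod_cast V_int (V := W.valuation B) (4 : ℤ)
        calc W.valuation B 4 * W.valuation B a' ^ 3 ≤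
              1 * exp (-1 : ℤ) ^ 3 := by
              exact mul_le_mul' h4 (pow_le_pow_left' q1 3)
          _ = exp (-3 : ℤ) := by
              rw [one_mul, ← exp_nsmul]
              rfl
    apply not_le.2 g3
    have e1 : W.valuation B C = W.valuation B (s * C) := by rw [map_mul, vs, one_mul]
    rw [e1, ec, map_mul (W.valuation B), map_pow, Y1_pow hW3, ← exp_nsmul]
    calc exp (3 • (-(i : ℤ))) * W.valuation B (9 * b' + 4 * a' ^ 3) ≤
          exp (3 • (-(i : ℤ))) * exp (-3 : ℤ) := mul_le_mul_right q3 _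
      _ = exp (-(3 * (i : ℤ) + 3)) := by
          rw [← exp_add]
          congr 1
          simp only [nsmul_eq_mul]
          push_cast
          ring
  have hLoc2 : LocSol (1 : W.adicCompletion B)
      (algebraMap B (W.adicCompletion B) a')
      (9 * algebraMap B (W.adicCompletion B) b' + 4 * algebraMap B (W.adicCompletion B) a' ^ 3)
      (algebraMap B (W.adicCompletion B) d) := by
    refine locSol_t (t := algebraMap B (W.adicCompletion B) (3 ^ i)) ?_ ?_ ?_ H
    · rw [Ne, map_eq_zero]
      exact p3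
    · rw [← map_mul, ea, map_mul]
    · rw [← map_mul, ec, map_mul, map_pow (algebraMap B (W.adicCompletion B)) (3 ^ i)]
      congr 1
      simp only [map_add, map_mul, map_pow, map_ofNat]
  have hcls : Cls2 Valued.v (algebraMap B (W.adicCompletion B) a')
      (algebraMap B (W.adicCompletion B) b')
      (algebraMap B (W.adicCompletion B) d) := by
    by_cases ha : W.valuation B a' < 1
    · have hb : W.valuation B b' = 1 :=
        le_antisymm vb (not_lt.1 fun hb => vab ⟨ha, hb⟩)
      exact wb e3 (by rw [valued_algebraMap]; exact ha) (by rw [valued_algebraMap]; exact hb)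
        hdw hLoc2
    · have ha1 : W.valuation B a' = 1 :=
        le_antisymm va (not_lt.1 ha)
      exact wa e3 (by rw [valued_algebraMap]; exact ha1)
        (by rw [valued_algebraMap]; exact vb) hdw hLoc2
  have hga : g a' = a' := by
    rw [ha', map_div₀, map_mul, hg, hgA, map_pow, map_ofNat]
  have hgb : g b' = b' := by
    rw [hb', map_div₀, map_mul, hg, map_sub, map_mul, map_mul, map_mul, map_pow, map_pow, hgA, hgC,
      hgE, map_ofNat, map_ofNat, map_ofNat]
  exact vs2 hW3 hinv hodd hga hgb va vb hd (cls2_descend hW3 va vb hd hcls)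

theorem Lo_exp : exp (-1 : ℤ) < (1 : WithZero (Multiplicative ℤ)) := by
  rw [← exp_zero, exp_lt_exp]
  norm_num

theorem loc_ramO {K L B : Type} [Field K] [NumberField K] [Field L] [NumberField L] [Field B]
    [NumberField B] [Algebra K L] [Algebra L B] [Algebra K B] [IsScalarTower K L B] {D : K} {s : B}
    (hs : s ^ 2 = algebraMap K B D) {α β : K}
    (W : HeightOneSpectrum (𝓞 B)) (w : HeightOneSpectrum (𝓞 L)) {e : ℕ} (he : e ≠ 0)
    (hwW : ∀ x : L, w.valuation L x ^ e = W.valuation B (algebraMap L B x))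
    (h3 : w.valuation L 3 = exp (-1 : ℤ)) (h3D : w.valuation L (algebraMap K L D) = exp (-1 : ℤ)) {i : ℕ}
    (g1 : w.valuation L (algebraMap K L α) ≤ exp (-(i + 1 : ℤ)))
    (g2 : w.valuation L (algebraMap K L β) ≤ exp (-(3 * i + 1 : ℤ)))
    (g3 : exp (-(3 * i + 3 : ℤ)) < w.valuation L (algebraMap K L β)) {d₁ d₂ : L}
    (hd : algebraMap L B d₁ + algebraMap L B d₂ * s ≠ 0)
    (HM : (∀ z : w.adicCompletion L, z ^ 2 ≠ algebraMap L _ (algebraMap K L D)) →
      LocM (algebraMap L (w.adicCompletion L) (algebraMap K L D))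
        (algebraMap L (w.adicCompletion L) (algebraMap K L (α / 3)))
        (algebraMap L (w.adicCompletion L) (algebraMap K L β)) (algebraMap L (w.adicCompletion L) d₁)
        (algebraMap L (w.adicCompletion L) d₂))
    {σ : L ≃ₐ[K] L} {g : B ≃ₐ[K] B} (hgσ : ∀ z : L, g (algebraMap L B z) = algebraMap L B (σ z))
    (hg : g s = s) (hodd : Odd (orderOf σ))
    (hσ : ∀ x, w.valuation L (σ x) = w.valuation L x)
    (hinv : ∀ x, W.valuation B (g x) = W.valuation B x) :
    ∃ t : B, W.valuation B (g (algebraMap L B d₁ + algebraMap L B d₂ * s) /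
      (algebraMap L B d₁ + algebraMap L B d₂ * s) * t ^ 3 - 1) ^ 2 ≤ W.valuation B 27 := by
  have h3K : (3 : K) ≠ 0 := by norm_num
  obtain ⟨D1, hD1⟩ : ∃ D1 : K, D1 = D / 3 := ⟨_, rfl⟩
  have hDD : D = 3 * D1 := by rw [hD1]; field_simp
  obtain ⟨δ, hδ⟩ : ∃ δ : L, δ = algebraMap K L D1 := ⟨_, rfl⟩
  have hcast : algebraMap K L D = 3 * δ := by rw [hDD, map_mul, map_ofNat, hδ]
  have hD : w.valuation L δ = 1 := by
    have h := h3D
    rw [hcast, map_mul, h3] at h
    have h5 : (exp (-1 : ℤ) : WithZero (Multiplicative ℤ)) ≠ 0 := exp_ne_zero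
    exact mul_left_cancel₀ h5 (h.trans (mul_one _).symm)
  have hns : ∀ z : w.adicCompletion L, z ^ 2 ≠ algebraMap L _ (algebraMap K L D) := by
    intro z hz
    have h := congrArg Valued.v hz
    rw [map_pow, valued_algebraMap, h3D] at h
    have h0 : Valued.v z ≠ 0 := by
      intro h0
      rw [h0, zero_pow two_ne_zero] at h
      exact exp_ne_zero h.symm
    rw [← exp_log h0, ← exp_nsmul, exp_inj] at h
    simp only [nsmul_eq_mul, Nat.cast_ofNat] at h
    omega
  have hLoc := HM hns
  obtain ⟨a, ha⟩ : ∃ a : K, a = α / 3 ^ (i + 1) := ⟨_, rfl⟩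
  obtain ⟨b, hb⟩ : ∃ b : K, b = β / 3 ^ (3 * i + 1) := ⟨_, rfl⟩
  have ea : α / 3 = 3 ^ i * a := by
    rw [ha, pow_succ]
    field_simp
  have ec : β = (3 ^ i) ^ 3 * (3 * b) := by
    have p1 : (3 : K) ^ (3 * i + 1) = (3 ^ i) ^ 3 * 3 := by
      rw [pow_add, mul_comm 3 i, pow_mul]
      norm_num
    rw [hb, p1]
    have p3 : (3 : K) ^ i ≠ 0 := pow_ne_zero i h3K
    field_simp
  have va : w.valuation L (algebraMap K L a) ≤ 1 := by
    rw [ha, map_div₀, map_pow, map_ofNat, ← exp_zero, Y1_div h3]
    exact g1.trans (le_of_eq (congrArg exp (by push_cast; ring)))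
  have vb : w.valuation L (algebraMap K L b) ≤ 1 := by
    rw [hb, map_div₀, map_pow, map_ofNat, ← exp_zero, Y1_div h3]
    exact g2.trans (le_of_eq (congrArg exp (by push_cast; ring)))
  have vb2 : exp (-2 : ℤ) < w.valuation L (algebraMap K L b) := by
    by_contra hcon
    rw [not_lt, hb, map_div₀, map_pow, map_ofNat, Y1_div h3] at hcon
    apply not_le.2 g3
    exact hcon.trans (le_of_eq (congrArg exp (by push_cast; ring)))
  have e3 : Valued.v (3 : w.adicCompletion L) = exp (-1 : ℤ) := by
    rw [valued_ofNat w 3]; exact h3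
  have hLoc2 : LocM (3 * algebraMap L (w.adicCompletion L) δ)
      (algebraMap L (w.adicCompletion L) (algebraMap K L a))
      (3 * algebraMap L (w.adicCompletion L) (algebraMap K L b))
      (algebraMap L (w.adicCompletion L) d₁) (algebraMap L (w.adicCompletion L) d₂) := by
    have eD : (3 : w.adicCompletion L) * algebraMap L (w.adicCompletion L) δ =
        algebraMap L (w.adicCompletion L) (algebraMap K L D) := by
      rw [hcast, map_mul, map_ofNat]
    rw [eD]
    refine locM_scale (t := algebraMap L (w.adicCompletion L) (algebraMap K L (3 ^ i))) ?_ ?_ ?_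
      hLoc
    · rw [Ne, map_eq_zero, map_eq_zero]
      exact pow_ne_zero i h3K
    · rw [ea, map_mul (algebraMap K L), map_mul]
    · rw [ec, map_mul (algebraMap K L), map_mul, map_pow (algebraMap K L) (3 ^ i),
        map_pow (algebraMap L (w.adicCompletion L)) (algebraMap K L (3 ^ i))]
      congr 1
      simp only [map_mul, map_ofNat]
  have hd12 : algebraMap L (w.adicCompletion L) d₁ ≠ 0 ∨
      algebraMap L (w.adicCompletion L) d₂ ≠ 0 := by
    by_contra hcon
    rw [not_or, not_not, not_not, map_eq_zero, map_eq_zero] at hcon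
    apply hd
    rw [hcon.1, hcon.2, map_zero, zero_mul, add_zero]
  have hcls := clsM_of_locM (V := Valued.v) e3 (by rw [valued_algebraMap]; exact hD)
    (by rw [valued_algebraMap]; exact va) (by rw [valued_algebraMap]; exact vb)
    (by rw [valued_algebraMap]; exact vb2) hd12 hLoc2
  have hcls2 : ClsM (w.valuation L) δ (algebraMap K L a) (algebraMap K L b) d₁ d₂ :=
    clsM_descend h3 hD.le va hcls
  have hW3e : W.valuation B 3 = exp (-1 : ℤ) ^ e := by
    rw [← h3, hwW, map_ofNat (algebraMap L B)]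
  have hW3 : W.valuation B 3 < 1 := by
    rw [hW3e]
    exact pow_lt_one₀ zero_le Lo_exp he
  have hWD : W.valuation B (algebraMap L B δ) = 1 := by
    have h := hwW δ
    rw [hD, one_pow] at h
    exact h.symm
  have hvW : ∀ z : L, w.valuation L z ≤ 1 → W.valuation B (algebraMap L B z) ≤ 1 := by
    intro z hz
    rw [← hwW]
    exact pow_le_one₀ zero_le hz
  have hs' : s ^ 2 = algebraMap L B (3 * δ) := by
    rw [hs, ← hcast, IsScalarTower.algebraMap_apply K L B]
  obtain ⟨t, ht⟩ := clsM_gal (v := w.valuation L) (W := W.valuation B) h3 hW3 hvW hgσ hσ hinv hodd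
    hD (by rw [hδ]; exact σ.commutes D1) (σ.commutes a) (σ.commutes b) va vb hs' hg hcls2
  refine ⟨t, (pow_le_pow_left' ht 2).trans (le_of_eq ?_)⟩
  have hWs : W.valuation B s ^ 2 = W.valuation B 3 := by
    rw [← map_pow, hs', map_mul, map_mul, hWD, mul_one, map_ofNat]
  have e27 : (27 : B) = 3 ^ 3 := by norm_num
  rw [e27, map_pow, ← hWs, ← pow_mul, ← pow_mul]

/-- `B = L + L s` -/
theorem Lo_dec {L B : Type} [Field L] [NumberField L] [Field B] [NumberField B]
    [Algebra L B] [IsGalois L B] {D : L} (hD0 : D ≠ 0) {s : B} (hs : s ^ 2 = algebraMap L B D)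
    (h2 : Module.finrank L B = 2) (hgen : ∀ g : B ≃ₐ[L] B, g s = s → g = 1) (d : B) :
    ∃ d₁ d₂ : L, d = algebraMap L B d₁ + algebraMap L B d₂ * s := by
  have hfd : FiniteDimensional L B := Module.Finite.of_restrictScalars_finite ℚ L B
  have hcard : Nat.card (B ≃ₐ[L] B) = 2 := by rw [IsGalois.card_aut_eq_finrank, h2]
  have hpm : ∀ h : B ≃ₐ[L] B, h s = s ∨ h s = -s := by
    intro h
    have h1 : (h s) ^ 2 = s ^ 2 := by
      rw [← map_pow, hs, h.commutes]
    exact sq_eq_sq_iff_eq_or_eq_neg.1 h1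
  have hs0 : s ≠ 0 := by
    rintro rfl
    rw [zero_pow two_ne_zero] at hs
    exact hD0 ((map_eq_zero (algebraMap L B)).1 hs.symm)
  obtain ⟨τ, hτ⟩ : ∃ τ : B ≃ₐ[L] B, τ ≠ 1 := by
    by_contra hne
    push Not at hne
    have : Subsingleton (B ≃ₐ[L] B) := ⟨fun a b => by rw [hne a, hne b]⟩
    have h3 : Nat.card (B ≃ₐ[L] B) = 1 := Nat.card_of_subsingleton 1
    omega
  have hτs : τ s = -s := (hpm τ).resolve_left fun h => hτ (hgen τ h)
  have hττ : ∀ x, τ (τ x) = x := by
    intro x
    have h3 : τ * τ = 1 := by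
      apply hgen
      rw [AlgEquiv.mul_apply, hτs, map_neg, hτs, neg_neg]
    have h4 := congrArg (fun f : B ≃ₐ[L] B => f x) h3
    exact h4
  have hall : ∀ h : B ≃ₐ[L] B, h = 1 ∨ h = τ := by
    intro h
    rcases hpm h with h3 | h3
    · exact Or.inl (hgen h h3)
    · right
      have h4 : h * τ = 1 := by
        apply hgen
        rw [AlgEquiv.mul_apply, hτs, map_neg, h3, neg_neg]
      ext x
      have h5 := congrArg (fun f : B ≃ₐ[L] B => f (τ x)) h4
      change h (τ (τ x)) = τ x at h5
      rwa [hττ] at h5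
  have hfix : ∀ x : B, τ x = x → ∃ y : L, algebraMap L B y = x := by
    intro x hx
    apply (IsGalois.mem_range_algebraMap_iff_fixed x).2
    intro h
    rcases hall h with rfl | rfl
    · rfl
    · exact hx
  obtain ⟨d₁, h₁⟩ := hfix ((d + τ d) / 2) (by
    rw [map_div₀, map_add, hττ, map_ofNat, add_comm])
  obtain ⟨d₂, h₂⟩ := hfix ((d - τ d) / (2 * s)) (by
    rw [map_div₀, map_sub, hττ, map_mul, map_ofNat, hτs]
    field_simp
    ring)
  refine ⟨d₁, d₂, ?_⟩
  rw [h₁, h₂]
  field_simp
  ring

theorem arithO {K L A B : Type} [Field K] [NumberField K] [Field L] [NumberField L] [Field A]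
    [NumberField A] [Field B] [NumberField B] [Algebra K L] [Algebra L B] [Algebra K B]
    [IsScalarTower K L B] [Algebra K A] [Algebra A B] [IsScalarTower K A B] [IsGalois K L]
    [IsGalois K B] [IsGalois L B] {D : 𝓞 K} {s : B} (hs : s ^ 2 = algebraMap K B (D : K))
    (h2 : Module.finrank L B = 2) (hgen : ∀ g : B ≃ₐ[L] B, g s = s → g = 1)
    (hA : ∀ g : B ≃ₐ[K] B, g s = s → ∀ x : A, g (algebraMap A B x) = algebraMap A B x)
    (R : NoNewCubeM L A B s) {α β : 𝓞 K}
    (hgood : ∀ w : HeightOneSpectrum (𝓞 L), (3 : 𝓞 L) ∈ w.asIdeal →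
      GoodVO (w.valuation L) (algebraMap K L (D : K)) (algebraMap K L (α : K))
        (algebraMap K L (β : K)))
    (hbad : ∀ v : HeightOneSpectrum (𝓞 K), 6 * D * β * (27 * β - 4 * D * α ^ 3) ∈ v.asIdeal →
      UniqueOver K L v.asIdeal)
    (hunr : ∀ w : HeightOneSpectrum (𝓞 L), (3 : 𝓞 L) ∈ w.asIdeal →
      w.valuation L 3 = exp (-1 : ℤ))
    {d : B} (hd : d ≠ 0)
    (H : FinSol3 B s (algebraMap K B ((α : K) / 3)) (algebraMap K B (β : K)) d)
    (HM : FinM s (algebraMap K L (D : K)) (algebraMap K L ((α : K) / 3)) (algebraMap K L (β : K)) d)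
    (hJ : ∀ g : B ≃ₐ[L] B, g s = -s → ∃ y, g d * d = y ^ 3)
    {g : B ≃ₐ[K] B} (hg : g s = s) (hodd : Odd (orderOf g)) : ∃ y, g d = d * y ^ 3 := by
  obtain ⟨γ, hγ⟩ : ∃ γ : 𝓞 K, γ = 27 * β - 4 * D * α ^ 3 := ⟨_, rfl⟩
  rw [← hγ] at hbad
  have hιint : ∀ z : 𝓞 K, algebraMap K B (z : K) =
      algebraMap (𝓞 B) B (algebraMap (𝓞 K) (𝓞 B) z) := by
    intro z
    rw [← IsScalarTower.algebraMap_apply (𝓞 K) (𝓞 B) B, ← IsScalarTower.algebraMap_apply (𝓞 K) K B]
  have below : ∀ W : HeightOneSpectrum (𝓞 B), W.asIdeal.under (𝓞 K) ≠ ⊥ := fun W =>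
    Ideal.IsIntegral.comap_ne_bot _ W.ne_bot
  have belowL : ∀ w : HeightOneSpectrum (𝓞 L), w.asIdeal.under (𝓞 K) ≠ ⊥ := fun w =>
    Ideal.IsIntegral.comap_ne_bot _ w.ne_bot
  have hinv : ∀ W : HeightOneSpectrum (𝓞 B),
      algebraMap (𝓞 K) (𝓞 B) (6 * D * β * γ) ∈ W.asIdeal →
      ∀ x, W.valuation B (g x) = W.valuation B x := by
    intro W hW
    exact val_inv_odd (L := L) h2 W
      (hbad ⟨W.asIdeal.under (𝓞 K), inferInstance, below W⟩ hW) g hodd
  have hgd : g d ≠ 0 := by
    intro h
    apply hd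
    rw [← g.symm_apply_apply d, h, map_zero]
  have hx0 : g d / d ≠ 0 := div_ne_zero hgd hd
  have h3K : (3 : K) ≠ 0 := by norm_num
  have hgsymm : g.symm s = s := by
    rw [AlgEquiv.symm_apply_eq, hg]
  have hsc : ∀ z : K, algebraMap L B (algebraMap K L z) = algebraMap K B z := fun z =>
    (IsScalarTower.algebraMap_apply K L B z).symm
  -- the restriction of `g` to `L`
  obtain ⟨σ, hσdef⟩ : ∃ σ : L ≃ₐ[K] L, σ = AlgEquiv.restrictNormal g L := ⟨_, rfl⟩
  have hgσ : ∀ z : L, g (algebraMap L B z) = algebraMap L B (σ z) := fun z => by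
    rw [hσdef]
    exact (AlgEquiv.restrictNormal_commutes g L z).symm
  obtain ⟨y, hy⟩ : ∃ y : B, g d / d = y ^ 3 := by
    refine R (g d / d) hx0 ?_ ?_ ?_ ?_
    · -- the twisted condition
      intro τ hτ
      let τ' : B ≃ₐ[L] B :=
        { g.trans ((τ.restrictScalars K).trans g.symm) with
          commutes' := by
            intro z
            change g.symm (τ (g (algebraMap L B z))) = algebraMap L B z
            rw [hgσ, τ.commutes, ← hgσ]
            exact g.symm_apply_apply _ }
      have hτ' : ∀ x, g (τ' x) = τ (g x) := fun x => g.apply_symm_apply _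
      have hτs : τ' s = -s := by
        apply g.injective
        rw [hτ', hg, hτ, map_neg, hg]
      obtain ⟨y₁, h₁⟩ := hJ τ hτ
      obtain ⟨y₂, h₂⟩ := hJ τ' hτs
      have h₃ := congrArg g h₂
      rw [map_mul, hτ', map_pow] at h₃
      refine ⟨g y₂ / y₁, ?_⟩
      rw [div_pow, ← h₃, ← h₁, map_div₀]
      have hτd : τ d ≠ 0 := by
        intro h
        apply hd
        rw [← τ.symm_apply_apply d, h, map_zero]
      field_simp
    · -- the valuations
      intro W
      by_cases hw : algebraMap (𝓞 K) (𝓞 B) (6 * D * β * γ) ∈ W.asIdeal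
      · rw [map_div₀, hinv W hw d, div_self ((Valuation.ne_zero_iff _).mpr hd), log_one]
        exact dvd_zero _
      · have hg' : ∀ w' : HeightOneSpectrum (𝓞 B),
            algebraMap (𝓞 K) (𝓞 B) (2 * D * β) ∉ w'.asIdeal →
            (3 : ℤ) ∣ log (w'.valuation B d) := by
          intro w' h2'
          have hDn : algebraMap (𝓞 K) (𝓞 B) D ∉ w'.asIdeal := by
            intro h
            apply h2'
            have e : (2 * D * β : 𝓞 K) = (2 * β) * D := by ring
            rw [e, map_mul]
            exact Ideal.mul_mem_left _ _ h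
          have h2n : algebraMap (𝓞 K) (𝓞 B) (2 * β) ∉ w'.asIdeal := by
            intro h
            apply h2'
            have e : (2 * D * β : 𝓞 K) = D * (2 * β) := by ring
            rw [e, map_mul]
            exact Ideal.mul_mem_left _ _ h
          rw [← valued_algebraMap w' d]
          refine vg (V := Valued.v) ?_ ?_ ?_ ?_ (H w')
          · rw [valued_algebraMap]
            apply Lo_sq
            rw [← map_pow, hs]
            rw [hιint]
            exact (w'.valuation_eq_one_iff_notMem (K := B)).2 hDn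
          · have e0 : (6 : K) * ((α : K) / 3) = 2 * (α : K) := by
              have h6 : (6 : K) = 2 * 3 := by norm_num
              rw [h6, mul_assoc, mul_div_cancel₀ _ h3K]
            have e : (6 : w'.adicCompletion B) * algebraMap B (w'.adicCompletion B)
                (algebraMap K B ((α : K) / 3)) =
                algebraMap B (w'.adicCompletion B) (algebraMap (𝓞 B) B
                  (algebraMap (𝓞 K) (𝓞 B) (2 * α))) := by
              have e1 : (6 : w'.adicCompletion B) * algebraMap B (w'.adicCompletion B)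
                (algebraMap K B ((α : K) / 3)) = algebraMap B (w'.adicCompletion B)
                (algebraMap K B (6 * ((α : K) / 3))) := by
                rw [map_mul (algebraMap K B), map_mul (algebraMap B (w'.adicCompletion B)),
                  map_ofNat, map_ofNat]
              rw [e1, e0, ← hιint]
              simp only [map_mul, map_ofNat]
            rw [e, valued_algebraMap]
            exact w'.valuation_le_one _
          · have e : (2 : w'.adicCompletion B) * algebraMap B (w'.adicCompletion B)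
                (algebraMap K B (β : K)) =
                algebraMap B (w'.adicCompletion B) (algebraMap (𝓞 B) B
                  (algebraMap (𝓞 K) (𝓞 B) (2 * β))) := by
              rw [← hιint]
              simp only [map_mul, map_ofNat]
            rw [e, valued_algebraMap]
            exact (w'.valuation_eq_one_iff_notMem (K := B)).2 h2n
          · exact (map_ne_zero_iff _ (algebraMap B (w'.adicCompletion B)).injective).2 hd
        have h2w : algebraMap (𝓞 K) (𝓞 B) (2 * D * β) ∉ W.asIdeal := by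
          intro h
          apply hw
          have e : (6 * D * β * γ : 𝓞 K) = (3 * γ) * (2 * D * β) := by ring
          rw [e, map_mul]
          exact Ideal.mul_mem_left _ _ h
        obtain ⟨w', h1, h2'⟩ := exists_conj g W
        have h2w' : algebraMap (𝓞 K) (𝓞 B) (2 * D * β) ∉ w'.asIdeal :=
          fun h => h2w ((h2' _).1 h)
        rw [map_div₀, h1, log_div ((Valuation.ne_zero_iff _).mpr hd)
          ((Valuation.ne_zero_iff _).mpr hd)]
        exact dvd_sub (hg' w' h2w') (hg' W h2w)
    · -- the places above three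
      intro W hW
      have hw6 : algebraMap (𝓞 K) (𝓞 B) (6 * D * β * γ) ∈ W.asIdeal := by
        have e : algebraMap (𝓞 K) (𝓞 B) (6 * D * β * γ) =
            algebraMap (𝓞 K) (𝓞 B) (2 * D * β * γ) * 3 := by
          have e2 : (6 * D * β * γ) = (2 * D * β * γ) * 3 := by ring
          rw [e2, map_mul, map_ofNat]
        rw [e]
        exact Ideal.mul_mem_left _ _ hW
      have hinvW := hinv W hw6
      obtain ⟨w, e, hw, he, hwW⟩ := val_up (L := L) W
      have h3w : (3 : 𝓞 L) ∈ w.asIdeal := by
        rw [hw]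
        change algebraMap (𝓞 L) (𝓞 B) 3 ∈ W.asIdeal
        rwa [map_ofNat]
      have h3v := hunr w h3w
      have hWw : W.valuation B (algebraMap K B (D : K)) = w.valuation L (algebraMap K L (D : K)) ^ e := by
        rw [← hsc, hwW]
      rcases hgood w h3w with ⟨h3D, i, g1, g2, g3⟩ | ⟨h3D, i, g1, g2, g3⟩
      · have hWD : W.valuation B (algebraMap K B (D : K)) = 1 := by rw [hWw, h3D, one_pow]
        have hWD2 : algebraMap (𝓞 K) (𝓞 B) D ∉ W.asIdeal := by
          rw [hιint] at hWD
          exact (W.valuation_eq_one_iff_notMem (K := B)).1 hWD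
        have hW3 := val_three_O hs hgen hunr W hWD2 hW
        have he1 : e = 1 := by
          have h5 := hwW 3
          rw [h3v, map_ofNat, hW3, ← exp_nsmul, exp_inj] at h5
          simp only [nsmul_eq_mul] at h5
          omega
        have hwW' : ∀ z : K, W.valuation B (algebraMap K B z) =
            w.valuation L (algebraMap K L z) := by
          intro z
          rw [← hsc, ← hwW, he1, pow_one]
        obtain ⟨t, ht⟩ := loc_unrO hs (α := (α : K)) (β := (β : K)) W hWD hW3 (i := i)
          (by rw [hwW']; exact g1)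
          (by
            rw [hwW']
            have e1 : algebraMap K L (27 * (β : K) - 4 * (D : K) * (α : K) ^ 3) =
                27 * algebraMap K L (β : K) - 4 * algebraMap K L (D : K) * algebraMap K L (α : K) ^ 3 := by
              simp only [map_sub, map_mul, map_pow, map_ofNat]
            rw [e1]
            exact g2)
          (by rw [hwW']; exact g3) hd (H W) hg hodd hinvW
        refine ⟨t, ?_⟩
        have h9 : W.valuation B 9 = exp (-2 : ℤ) := by
          have e : (9 : B) = 3 * 3 := by norm_num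
          rw [e, map_mul, hW3, ← exp_add]
          rfl
        have h27 : W.valuation B 27 = exp (-3 : ℤ) := by
          have e : (27 : B) = 3 * 9 := by norm_num
          rw [e, map_mul, hW3, h9, ← exp_add]
          rfl
        calc W.valuation B (g d / d * t ^ 3 - 1) ^ 2 ≤ W.valuation B 9 ^ 2 := pow_le_pow_left' ht 2
          _ ≤ W.valuation B 27 := by
            rw [h9, h27, ← exp_nsmul, exp_le_exp]
            simp
      · have hD0 : algebraMap K L (D : K) ≠ 0 := by
          intro h0
          rw [h0, map_zero] at h3D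
          exact exp_ne_zero h3D.symm
        obtain ⟨d₁, d₂, hdd⟩ := Lo_dec hD0 (by rw [hs, IsScalarTower.algebraMap_apply K L B]) h2 hgen d
        have hoddσ : Odd (orderOf σ) := by
          refine Odd.of_dvd_nat hodd ?_
          rw [hσdef]
          exact orderOf_map_dvd (AlgEquiv.restrictNormalHom L) g
        have hmemw : algebraMap (𝓞 K) (𝓞 L) (6 * D * β * γ) ∈ w.asIdeal := by
          rw [hw]
          change algebraMap (𝓞 L) (𝓞 B) (algebraMap (𝓞 K) (𝓞 L) _) ∈ W.asIdeal
          rw [← IsScalarTower.algebraMap_apply (𝓞 K) (𝓞 L) (𝓞 B)]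
          exact hw6
        have hσw : ∀ x, w.valuation L (σ x) = w.valuation L x :=
          val_conj_of_unique σ w
            (hbad ⟨w.asIdeal.under (𝓞 K), inferInstance, belowL w⟩ hmemw)
        rw [hdd]
        exact loc_ramO hs (α := (α : K)) (β := (β : K)) W w he hwW h3v h3D (i := i) g1 g2 g3
          (by rw [← hdd]; exact hd) (HM d₁ d₂ hdd w) hgσ hg hoddσ hσw hinvW
    · -- the norm
      refine ⟨1, ?_⟩
      let gA : B ≃ₐ[A] B := { g with commutes' := hA g hg }
      have hgA : gA d = g d := rfl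
      have h1 : Algebra.norm A (g d / d) * Algebra.norm A d = Algebra.norm A d := by
        rw [← map_mul, div_mul_cancel₀ _ hd, ← hgA, Algebra.norm_eq_of_algEquiv]
      have hfdA : FiniteDimensional A B := Module.Finite.of_restrictScalars_finite ℚ A B
      have h2' : Algebra.norm A d ≠ 0 := Algebra.norm_ne_zero_iff.mpr hd
      rw [one_pow]
      exact mul_right_cancel₀ h2' (by rw [h1, one_mul])
  refine ⟨y, ?_⟩
  rw [← hy, mul_div_cancel₀ _ hd]

end H11L
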